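import Pool.Agent.TH83.PFR.Final

/-!
Covering theorem.
-/

set_option autoImplicit false

open Finset
open scoped Pointwise

namespace Pool.Agent.TH83.PFR

theorem prod_ite_const {n : ℕ} (x : Fin n → ℤ) (c : ℝ) :
    ∏ i, (if 0 < x i then c else 1) = c ^ (univ.filter (fun i => 0 < x i)).card := by
  rw [prod_ite, prod_const, prod_const_one, mul_one]

theorem card_diff {Γ : Type*} [AddCommGroup Γ] [DecidableEq Γ] {n : ℕ} (F : (Fin n → ℤ) → Γ)
    (x : Fin n → ℤ) (hx : 0 ≤ x)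
    (hF : ∀ a ∈ Icc 0 x, ∀ b ∈ Icc 0 x, ∀ c ∈ Icc 0 x, ∀ e ∈ Icc 0 x,
      F a + F b = F c + F e → a + b = c + e) :
    (Icc (-x) x).card ≤ ((Icc 0 x).image F - (Icc 0 x).image F).card := by
  have hp : ∀ y ∈ Icc (-x) x, y ⊔ 0 ∈ Icc 0 x := by
    intro y hy
    have h := mem_Icc.1 hy
    exact mem_Icc.2 ⟨le_sup_right, sup_le h.2 hx⟩
  have hm : ∀ y ∈ Icc (-x) x, (-y) ⊔ 0 ∈ Icc 0 x := by
    intro y hy
    have h := mem_Icc.1 hy
    exact mem_Icc.2 ⟨le_sup_right, sup_le (neg_le.1 h.1) hx⟩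
  have hd : ∀ y : Fin n → ℤ, y ⊔ 0 - ((-y) ⊔ 0) = y := by
    intro y
    funext i
    simp only [Pi.sub_apply, Pi.sup_apply, Pi.neg_apply, Pi.zero_apply]
    omega
  refine card_le_card_of_injOn (fun y => F (y ⊔ 0) - F ((-y) ⊔ 0)) ?_ ?_
  · intro y hy
    exact sub_mem_sub (mem_image_of_mem F (hp y hy)) (mem_image_of_mem F (hm y hy))
  · intro y hy w hw h
    simp only at h
    have h1 : F (y ⊔ 0) + F ((-w) ⊔ 0) = F (w ⊔ 0) + F ((-y) ⊔ 0) := by
      rw [sub_eq_sub_iff_add_eq_add] at h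
      exact h
    have h2 := hF _ (hp y hy) _ (hm w hw) _ (hp w hw) _ (hm y hy) h1
    rw [← hd y, ← hd w, sub_eq_sub_iff_add_eq_add]
    exact h2

theorem cover {Γ : Type*} [AddCommGroup Γ] [DecidableEq Γ] {n : ℕ} (F : (Fin n → ℤ) → Γ)
    (x : Fin n → ℤ) (hx : 0 ≤ x)
    (hF : ∀ a ∈ Icc 0 x, ∀ b ∈ Icc 0 x, ∀ c ∈ Icc 0 x, ∀ e ∈ Icc 0 x,
      (F a + F b = F c + F e ↔ a + b = c + e))
    (A : Finset Γ) (hA : A.Nonempty) (L : ℝ)
    (hL : ((A + (Icc 0 x).image F).card : ℝ) ≤ L) (d : ℕ)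
    (hd : d = (univ.filter (fun i => 0 < x i)).card) :
    ∃ (B : Set (Fin d → ℝ)) (φ : (Fin d → ℤ) →+ Γ) (T : Finset Γ),
      Convex ℝ B ∧ IsCompact B ∧ (interior B).Nonempty ∧ (∀ x ∈ B, -x ∈ B) ∧
      {x : Fin d → ℤ | (fun i => (x i : ℝ)) ∈ B}.ncard ≤ A.card ∧
      ((T.card : ℝ) ≤ L / ∏ i, (1 + (x i : ℝ)) ∨ (T.card : ℝ) ≤ 3 * 2 ^ d * L / A.card) ∧
      ∀ a ∈ A, ∃ t ∈ T, ∃ x : Fin d → ℤ, (fun i => (x i : ℝ)) ∈ B ∧ a = t + φ x := by
  classical
  have hA1 : (1 : ℝ) ≤ A.card := by exact_mod_cast card_pos.2 hA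
  have hA0 : (0 : ℝ) < A.card := by linarith
  obtain ⟨z, hz0, hzx, hzM, hzc⟩ := choose_z x hx (A.card : ℝ) hA1
  set s := univ.filter (fun i => 0 < x i) with hs
  set σ : Fin d ↪o Fin n := s.orderEmbOfFin hd.symm with hσ
  set g : Fin n → Γ := fun i => F (Pi.single i 1) - F 0 with hg
  have hsub : Icc 0 z ⊆ Icc 0 x := Icc_subset_Icc le_rfl hzx
  have haff : ∀ y ∈ Icc 0 x, F y = F 0 + ∑ i, y i • g i := fun y hy =>
    affine_box F x (fun a ha b hb c hc e he h => (hF a ha b hb c hc e he).2 h) g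
      (fun i _ => rfl) y hy
  have hsum : ∀ y ∈ Icc 0 x, ∑ i, y i • g i = ∑ j, y (σ j) • g (σ j) := by
    intro y hy
    have h1 : ∑ i ∈ s, y i • g i = ∑ i, y i • g i := by
      refine sum_subset (subset_univ s) fun i _ hi => ?_
      have h2 : ¬ 0 < x i := fun h => hi (mem_filter.2 ⟨mem_univ i, h⟩)
      have h3 : y i ≤ x i := (mem_Icc.1 hy).2 i
      have h4 : 0 ≤ y i := (mem_Icc.1 hy).1 i
      have h5 : y i = 0 := by omega
      rw [h5, zero_smul]
    rw [← h1]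
    have h2 : s = univ.map σ.toEmbedding := by
      rw [hσ]
      exact (map_orderEmbOfFin_univ s hd.symm).symm
    conv_lhs => rw [h2]
    rw [sum_map]
    rfl
  set φ : (Fin d → ℤ) →+ Γ := AddMonoidHom.mk' (fun w => ∑ j, w j • g (σ j)) (by
    intro a b
    rw [← sum_add_distrib]
    refine sum_congr rfl fun j _ => ?_
    rw [Pi.add_apply, add_smul]) with hφ
  have hφa : ∀ w, φ w = ∑ j, w j • g (σ j) := fun w => rfl
  -- the covering
  set Q' := (Icc 0 z).image F with hQ'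
  have h0z : (0 : Fin n → ℤ) ∈ Icc 0 z := mem_Icc.2 ⟨le_rfl, hz0⟩
  have hinj : Set.InjOn F (Icc 0 z : Finset (Fin n → ℤ)) := by
    intro a ha b hb h
    have h1 := (hF a (hsub ha) 0 (hsub h0z) b (hsub hb) 0 (hsub h0z)).1 (by rw [h])
    exact add_right_cancel h1
  have hcardQ : (Q'.card : ℝ) = ∏ i, (1 + (z i : ℝ)) := by
    rw [hQ', card_image_of_injOn hinj, card_box z hz0]
  have hQ'ne : Q'.Nonempty := ⟨F 0, mem_image_of_mem F h0z⟩
  have hQ'0 : (0 : ℝ) < Q'.card := by exact_mod_cast card_pos.2 hQ'ne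
  have hAQ : ((A + Q').card : ℝ) ≤ L / Q'.card * Q'.card := by
    rw [div_mul_cancel₀ _ hQ'0.ne']
    refine le_trans ?_ hL
    exact_mod_cast card_le_card (add_subset_add_left (image_subset_image hsub))
  obtain ⟨T, hTA, hTc, hTcov⟩ := ruzsa_covering_add hQ'ne hAQ
  have hL0 : 0 < L := by
    refine lt_of_lt_of_le ?_ hL
    have : (A + (Icc 0 x).image F).Nonempty := hA.add ⟨F 0, mem_image_of_mem F (hsub h0z)⟩
    exact_mod_cast card_pos.2 this
  set b : Fin d → ℝ := fun j => (z (σ j) : ℝ) + 1 / 2 with hb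
  have hb0 : ∀ j, 0 < b j := by
    intro j
    have : (0 : ℝ) ≤ (z (σ j) : ℝ) := by exact_mod_cast hz0 (σ j)
    simp only [hb]
    linarith
  refine ⟨Set.Icc (-b) b, φ, T, convex_Icc _ _, isCompact_Icc, ?_, ?_, ?_, ?_, ?_⟩
  · refine ⟨0, mem_interior_iff_mem_nhds.2 (pi_Icc_mem_nhds (fun j => ?_) (fun j => ?_))⟩
    · simpa using hb0 j
    · simpa using hb0 j
  · intro w hw
    exact ⟨neg_le_neg hw.2, neg_le.1 hw.1⟩
  · have h1 : {w : Fin d → ℤ | (fun i => (w i : ℝ)) ∈ Set.Icc (-b) b} =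
        ((Icc (-(fun j => z (σ j))) (fun j => z (σ j)) : Finset (Fin d → ℤ)) :
          Set (Fin d → ℤ)) := by
      ext w
      simp only [Set.mem_ofPred_eq, Set.mem_Icc, coe_Icc, Pi.le_def, Pi.neg_apply, hb]
      constructor
      · rintro ⟨h1, h2⟩
        refine ⟨fun i => ?_, fun i => ?_⟩
        · have h3 := h1 i
          by_contra hcon
          push Not at hcon
          have h4 : w i + 1 ≤ -z (σ i) := hcon
          have h5 : ((w i : ℝ)) + 1 ≤ -(z (σ i) : ℝ) := by exact_mod_cast h4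
          linarith
        · have h3 := h2 i
          by_contra hcon
          push Not at hcon
          have h4 : z (σ i) + 1 ≤ w i := hcon
          have h5 : (z (σ i) : ℝ) + 1 ≤ (w i : ℝ) := by exact_mod_cast h4
          linarith
      · rintro ⟨h1, h2⟩
        refine ⟨fun i => ?_, fun i => ?_⟩
        · have h3 : -(z (σ i) : ℝ) ≤ (w i : ℝ) := by exact_mod_cast h1 i
          linarith
        · have h3 : (w i : ℝ) ≤ (z (σ i) : ℝ) := by exact_mod_cast h2 i
          linarith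
    rw [h1, Set.ncard_coe_finset]
    have h2 : (((Icc (-(fun j => z (σ j))) (fun j => z (σ j)) :
        Finset (Fin d → ℤ)).card : ℕ) : ℝ) ≤ A.card := by
      rw [card_box2 (fun j => z (σ j)) (fun j => hz0 (σ j))]
      refine le_trans (le_of_eq ?_) hzM
      have h3 : ∏ i ∈ s, (2 * (z i : ℝ) + 1) = ∏ i, (2 * (z i : ℝ) + 1) := by
        refine prod_subset (subset_univ s) fun i _ hi => ?_
        have h2 : ¬ 0 < x i := fun h => hi (mem_filter.2 ⟨mem_univ i, h⟩)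
        have h3 : z i ≤ x i := hzx i
        have h4 : 0 ≤ z i := hz0 i
        have h5 : z i = 0 := by omega
        rw [h5]
        norm_num
      rw [← h3]
      have h4 : s = univ.map σ.toEmbedding := by
        rw [hσ]
        exact (map_orderEmbOfFin_univ s hd.symm).symm
      conv_rhs => rw [h4]
      rw [prod_map]
      rfl
    exact_mod_cast h2
  · rcases hzc with hc | hc
    · left
      rw [hcardQ, hc] at hTc
      exact hTc
    · right
      have h1 : ∏ i, (2 * (z i : ℝ) + 1) ≤ 2 ^ d * ∏ i, (1 + (z i : ℝ)) := by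
        rw [hd, ← prod_ite_const x 2, ← prod_mul_distrib]
        refine prod_le_prod (fun i _ => ?_) (fun i _ => ?_)
        · have : (0 : ℝ) ≤ (z i : ℝ) := by exact_mod_cast hz0 i
          linarith
        · have h3 : z i ≤ x i := hzx i
          have h4 : 0 ≤ z i := hz0 i
          have h6 : (0 : ℝ) ≤ (z i : ℝ) := by exact_mod_cast h4
          split_ifs with h2
          · linarith
          · have h5 : z i = 0 := by omega
            rw [h5]
            norm_num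
      rw [hcardQ] at hTc
      refine hTc.trans ?_
      have h2 : 0 < ∏ i, (1 + (z i : ℝ)) := by
        rw [← hcardQ]
        exact hQ'0
      rw [div_le_div_iff₀ h2 hA0]
      have h3 : (A.card : ℝ) ≤ 3 * (2 ^ d * ∏ i, (1 + (z i : ℝ))) := by linarith
      calc L * (A.card : ℝ) ≤ L * (3 * (2 ^ d * ∏ i, (1 + (z i : ℝ)))) :=
            mul_le_mul_of_nonneg_left h3 hL0.le
        _ = 3 * 2 ^ d * L * ∏ i, (1 + (z i : ℝ)) := by ring
  · intro a ha
    obtain ⟨t, ht, u, hu, rfl⟩ := mem_add.1 (hTcov ha)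
    obtain ⟨v, hv, w, hw, rfl⟩ := mem_sub.1 hu
    obtain ⟨p, hp, rfl⟩ := mem_image.1 hv
    obtain ⟨q, hq, rfl⟩ := mem_image.1 hw
    have hp' := mem_Icc.1 hp
    have hq' := mem_Icc.1 hq
    refine ⟨t, ht, fun j => (p - q) (σ j), ⟨fun j => ?_, fun j => ?_⟩, ?_⟩
    · have h1 : 0 ≤ p (σ j) := hp'.1 (σ j)
      have h2 : q (σ j) ≤ z (σ j) := hq'.2 (σ j)
      have h3 : -z (σ j) ≤ (p - q) (σ j) := by
        simp only [Pi.sub_apply]
        omega
      have h4 : -(z (σ j) : ℝ) ≤ (((p - q) (σ j) : ℤ) : ℝ) := by exact_mod_cast h3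
      simp only [Pi.neg_apply, hb]
      linarith
    · have h1 : 0 ≤ q (σ j) := hq'.1 (σ j)
      have h2 : p (σ j) ≤ z (σ j) := hp'.2 (σ j)
      have h3 : (p - q) (σ j) ≤ z (σ j) := by
        simp only [Pi.sub_apply]
        omega
      have h4 : (((p - q) (σ j) : ℤ) : ℝ) ≤ (z (σ j) : ℝ) := by exact_mod_cast h3
      simp only [hb]
      linarith
    · rw [hφa]
      congr 1
      rw [haff p (hsub hp), haff q (hsub hq), hsum p (hsub hp), hsum q (hsub hq)]
      have h1 : ∑ j, (p - q) (σ j) • g (σ j) =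
          ∑ j, p (σ j) • g (σ j) - ∑ j, q (σ j) • g (σ j) := by
        rw [← sum_sub_distrib]
        refine sum_congr rfl fun j _ => ?_
        rw [Pi.sub_apply, sub_smul]
      rw [h1]
      abel

end Pool.Agent.TH83.PFR
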