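import Pool.Agent.TH83.PFR.Induct

/-!
Covering by boxes.
-/

set_option autoImplicit false

open Finset
open scoped Pointwise

namespace Pool.Agent.TH83.PFR

theorem card_box {n : ℕ} (x : Fin n → ℤ) (hx : 0 ≤ x) :
    (((Icc 0 x).card : ℕ) : ℝ) = ∏ i, (1 + (x i : ℝ)) := by
  rw [Pi.card_Icc, Nat.cast_prod]
  refine prod_congr rfl fun i _ => ?_
  have h0 : 0 ≤ x i := hx i
  rw [Int.card_Icc]
  have h1 : (((x i + 1 - (0 : Fin n → ℤ) i).toNat : ℤ)) = x i + 1 := by
    rw [Int.toNat_of_nonneg]
    · simp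
    · simp only [Pi.zero_apply]
      omega
  have h2 : (((x i + 1 - (0 : Fin n → ℤ) i).toNat : ℕ) : ℝ) =
      (((x i + 1 - (0 : Fin n → ℤ) i).toNat : ℤ) : ℝ) := by norm_cast
  rw [h2, h1]
  push_cast
  ring

theorem card_box2 {n : ℕ} (x : Fin n → ℤ) (hx : 0 ≤ x) :
    (((Icc (-x) x).card : ℕ) : ℝ) = ∏ i, (2 * (x i : ℝ) + 1) := by
  rw [Pi.card_Icc, Nat.cast_prod]
  refine prod_congr rfl fun i _ => ?_
  have h0 : 0 ≤ x i := hx i
  rw [Int.card_Icc]
  have h1 : (((x i + 1 - (-x) i).toNat : ℤ)) = 2 * x i + 1 := by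
    rw [Int.toNat_of_nonneg]
    · simp only [Pi.neg_apply]
      ring
    · simp only [Pi.neg_apply]
      omega
  have h2 : (((x i + 1 - (-x) i).toNat : ℕ) : ℝ) =
      (((x i + 1 - (-x) i).toNat : ℤ) : ℝ) := by norm_cast
  rw [h2, h1]
  push_cast
  ring

/-- choice of a box of volume about `M` -/
theorem choose_z {n : ℕ} (x : Fin n → ℤ) (hx : 0 ≤ x) (M : ℝ) (hM : 1 ≤ M) :
    ∃ z : Fin n → ℤ, 0 ≤ z ∧ z ≤ x ∧ ∏ i, (2 * (z i : ℝ) + 1) ≤ M ∧
      (z = x ∨ M < 3 * ∏ i, (2 * (z i : ℝ) + 1)) := by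
  classical
  set S := (Icc 0 x).filter (fun z => ∏ i, (2 * (z i : ℝ) + 1) ≤ M) with hS
  have hne : S.Nonempty := by
    refine ⟨0, mem_filter.2 ⟨mem_Icc.2 ⟨le_rfl, hx⟩, ?_⟩⟩
    simpa using hM
  obtain ⟨z, hz, hmax⟩ := exists_max_image S (fun z => ∏ i, (2 * (z i : ℝ) + 1)) hne
  have hz' := mem_filter.1 hz
  have hz0 : 0 ≤ z := (mem_Icc.1 hz'.1).1
  have hzx : z ≤ x := (mem_Icc.1 hz'.1).2
  refine ⟨z, hz0, hzx, hz'.2, ?_⟩
  by_cases hc : z = x
  · exact Or.inl hc
  · right
    have h1 : ∃ i, z i < x i := by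
      by_contra hcon
      push Not at hcon
      exact hc (le_antisymm hzx hcon)
    obtain ⟨i, hi⟩ := h1
    have hzi : 0 ≤ z i := hz0 i
    have hzr : (0 : ℝ) ≤ (z i : ℝ) := by exact_mod_cast hzi
    set R : ℝ := ∏ j ∈ univ.erase i, (2 * (z j : ℝ) + 1) with hR
    have hR0 : 0 < R := prod_pos fun j _ => by
      have : (0 : ℝ) ≤ (z j : ℝ) := by exact_mod_cast hz0 j
      linarith
    have e1 : ∏ j, (2 * (z j : ℝ) + 1) = (2 * (z i : ℝ) + 1) * R :=
      (mul_prod_erase univ (fun j => (2 * (z j : ℝ) + 1)) (mem_univ i)).symm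
    set z' : Fin n → ℤ := Function.update z i (z i + 1) with hz'def
    have e2 : ∏ j, (2 * (z' j : ℝ) + 1) = (2 * ((z i : ℝ) + 1) + 1) * R := by
      rw [← mul_prod_erase univ (fun j => (2 * (z' j : ℝ) + 1)) (mem_univ i)]
      congr 1
      · rw [hz'def, Function.update_self]
        push_cast
        ring
      · refine prod_congr rfl fun j hj => ?_
        rw [hz'def, Function.update_of_ne (ne_of_mem_erase hj)]
    have hz'0 : 0 ≤ z' := by
      intro j
      by_cases hj : j = i
      · subst hj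
        rw [hz'def, Function.update_self]
        simp only [Pi.zero_apply]
        omega
      · rw [hz'def, Function.update_of_ne hj]
        exact hz0 j
    have hz'x : z' ≤ x := by
      intro j
      by_cases hj : j = i
      · subst hj
        rw [hz'def, Function.update_self]
        exact Int.add_one_le_iff.2 hi
      · rw [hz'def, Function.update_of_ne hj]
        exact hzx j
    have h2 : z' ∉ S := by
      intro hcon
      have h3 := hmax z' hcon
      rw [e1, e2] at h3
      nlinarith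
    have h3 : M < ∏ j, (2 * (z' j : ℝ) + 1) := by
      by_contra hcon
      push Not at hcon
      exact h2 (mem_filter.2 ⟨mem_Icc.2 ⟨hz'0, hz'x⟩, hcon⟩)
    rw [e2] at h3
    rw [e1]
    nlinarith

/-- A Freiman 2-homomorphism is affine on a box. -/
theorem affine_box {Γ : Type*} [AddCommGroup Γ] {n : ℕ} (F : (Fin n → ℤ) → Γ)
    (x : Fin n → ℤ)
    (hF : ∀ a ∈ Icc 0 x, ∀ b ∈ Icc 0 x, ∀ c ∈ Icc 0 x, ∀ e ∈ Icc 0 x, a + b = c + e →
      F a + F b = F c + F e) (g : Fin n → Γ)
    (hg : ∀ i, 0 < x i → g i = F (Pi.single i 1) - F 0) (y : Fin n → ℤ) (hy : y ∈ Icc 0 x) :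
    F y = F 0 + ∑ i, y i • g i := by
  classical
  have main : ∀ (m : ℕ) (y : Fin n → ℤ), y ∈ Icc 0 x → (∑ i, y i).toNat = m →
      F y = F 0 + ∑ i, y i • g i := by
    intro m
    induction m with
    | zero =>
      intro y hy hm
      have hy0 := (mem_Icc.1 hy).1
      have h1 : ∑ i, y i = 0 := by
        have h2 : 0 ≤ ∑ i, y i := sum_nonneg fun i _ => hy0 i
        omega
      have h2 : ∀ i, y i = 0 := fun i =>
        (sum_eq_zero_iff_of_nonneg fun i _ => hy0 i).1 h1 i (mem_univ i)
      have h3 : y = 0 := funext h2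
      subst h3
      simp
    | succ m ih =>
      intro y hy hm
      have hy0 := (mem_Icc.1 hy).1
      have hyx := (mem_Icc.1 hy).2
      have h1 : ∃ i, 0 < y i := by
        by_contra hcon
        push Not at hcon
        have h2 : ∑ i, y i ≤ 0 := sum_nonpos fun i _ => hcon i
        omega
      obtain ⟨i, hi⟩ := h1
      have hx0 : 0 ≤ x := hy0.trans hyx
      have hxi : 0 < x i := lt_of_lt_of_le hi (hyx i)
      have hs : (Pi.single i 1 : Fin n → ℤ) ∈ Icc 0 x := by
        refine mem_Icc.2 ⟨?_, ?_⟩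
        · intro j
          by_cases hj : j = i
          · subst hj
            simp
          · simp [hj]
        · intro j
          by_cases hj : j = i
          · subst hj
            simp only [Pi.single_eq_same]
            omega
          · simp only [Pi.single_eq_of_ne hj]
            exact hx0 j
      have hys : y - Pi.single i 1 ∈ Icc 0 x := by
        refine mem_Icc.2 ⟨?_, ?_⟩
        · intro j
          by_cases hj : j = i
          · subst hj
            simp only [Pi.sub_apply, Pi.single_eq_same, Pi.zero_apply]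
            omega
          · simp only [Pi.sub_apply, Pi.single_eq_of_ne hj, sub_zero]
            exact hy0 j
        · intro j
          have h5 : (0 : ℤ) ≤ (Pi.single i 1 : Fin n → ℤ) j := (mem_Icc.1 hs).1 j
          have h6 : y j ≤ x j := hyx j
          simp only [Pi.sub_apply]
          omega
      have hsum : ∑ j, (y - Pi.single i 1 : Fin n → ℤ) j = ∑ j, y j - 1 := by
        simp only [Pi.sub_apply, sum_sub_distrib]
        rw [sum_pi_single']
        simp
      have h2 := ih (y - Pi.single i 1) hys (by rw [hsum]; omega)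
      have h00 : (0 : Fin n → ℤ) ∈ Icc 0 x := mem_Icc.2 ⟨le_rfl, hx0⟩
      have h3 := hF y hy 0 h00 (y - Pi.single i 1) hys (Pi.single i 1) hs (by simp)
      have h4 : ∑ j, y j • g j = ∑ j, (y - Pi.single i 1 : Fin n → ℤ) j • g j + g i := by
        have h5 : ∑ j, (y - Pi.single i 1 : Fin n → ℤ) j • g j =
            ∑ j, y j • g j - ∑ j, (Pi.single i 1 : Fin n → ℤ) j • g j := by
          rw [← sum_sub_distrib]
          refine sum_congr rfl fun j _ => ?_
          rw [Pi.sub_apply, sub_smul]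
        have h6 : ∑ j, (Pi.single i 1 : Fin n → ℤ) j • g j = g i := by
          rw [sum_eq_single i]
          · simp
          · intro j _ hj
            simp [hj]
          · intro h
            exact absurd (mem_univ i) h
        rw [h5, h6]
        abel
      rw [h4, hg i hxi]
      have h5 : F y = F (y - Pi.single i 1) + F (Pi.single i 1) - F 0 := by
        rw [← h3]
        abel
      rw [h5, h2]
      abel
  exact main _ y hy rfl

end Pool.Agent.TH83.PFR
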