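import Pool.Agent.TH83.PFR.Level

/-!
The main one-dimensional estimate: `∑ α` is controlled by `P = ∑ α (x α)^c` and
`Q = ∑ (α (x α)^c)^(1/2)`, `c = 1/100`, when `x` dominates its rank function.
-/

set_option autoImplicit false

open Finset

namespace Pool.Agent.TH83.PFR

theorem sum_rpow (n : ℕ) :
    ∑ k ∈ range n, ((k : ℝ) + 1) ^ (-(1 / 101) : ℝ) ≤ 101 / 100 * (n : ℝ) ^ (100 / 101 : ℝ) := by
  induction n with
  | zero => simp
  | succ n ih =>
    rw [sum_range_succ]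
    have hn : (0 : ℝ) < (n : ℝ) + 1 := by positivity
    -- `(n/(n+1))^r ≤ 1 - r/(n+1)`
    have h1 : (1 + (-(1 / ((n : ℝ) + 1)))) ^ (100 / 101 : ℝ) ≤
        1 + (100 / 101 : ℝ) * (-(1 / ((n : ℝ) + 1))) := by
      apply rpow_one_add_le_one_add_mul_self
      · rw [neg_le_neg_iff, div_le_one hn]
        linarith [(Nat.cast_nonneg n : (0 : ℝ) ≤ n)]
      · norm_num
      · norm_num
    have h2 : (1 + (-(1 / ((n : ℝ) + 1)))) = (n : ℝ) / ((n : ℝ) + 1) := by
      field_simp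
      ring
    rw [h2, Real.div_rpow (Nat.cast_nonneg n) hn.le] at h1
    have h3 : (n : ℝ) ^ (100 / 101 : ℝ) ≤
        ((n : ℝ) + 1) ^ (100 / 101 : ℝ) * (1 + (100 / 101 : ℝ) * (-(1 / ((n : ℝ) + 1)))) := by
      rw [div_le_iff₀ (by positivity)] at h1
      linarith
    have h4 : ((n : ℝ) + 1) ^ (100 / 101 : ℝ) * (1 / ((n : ℝ) + 1)) =
        ((n : ℝ) + 1) ^ (-(1 / 101) : ℝ) := by
      rw [one_div, ← Real.rpow_neg_one, ← Real.rpow_add hn]
      norm_num
    have h5 : ((n + 1 : ℕ) : ℝ) = (n : ℝ) + 1 := by push_cast; ring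
    rw [h5]
    nlinarith [h3, h4, ih]

theorem sum_inv_max (N : ℝ) (hN : 0 < N) (n : ℕ) :
    ∑ k ∈ range n, 1 / max ((k : ℝ) + 1) N ≤ 2 * Real.log (((n : ℝ) + N) / N) := by
  induction n with
  | zero => simp [div_self hN.ne']
  | succ n ih =>
    rw [sum_range_succ]
    have hn : (0 : ℝ) ≤ n := Nat.cast_nonneg n
    have h0 : 0 < (n : ℝ) + N := by positivity
    have h1 : Real.log (((n + 1 : ℕ) + N) / N) = Real.log (((n : ℝ) + N) / N) +
        Real.log (((n : ℝ) + 1 + N) / ((n : ℝ) + N)) := by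
      rw [← Real.log_mul (by positivity) (by positivity)]
      congr 1
      push_cast
      field_simp
    rw [h1]
    have h2 : 1 - (((n : ℝ) + 1 + N) / ((n : ℝ) + N))⁻¹ ≤
        Real.log (((n : ℝ) + 1 + N) / ((n : ℝ) + N)) :=
      Real.one_sub_inv_le_log_of_pos (by positivity)
    have h3 : 1 - (((n : ℝ) + 1 + N) / ((n : ℝ) + N))⁻¹ = 1 / ((n : ℝ) + 1 + N) := by
      field_simp
      ring
    have h4 : 1 / max ((n : ℝ) + 1) N ≤ 2 * (1 / ((n : ℝ) + 1 + N)) := by
      have hm : (0 : ℝ) < max ((n : ℝ) + 1) N := lt_max_of_lt_right hN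
      rw [mul_one_div, div_le_div_iff₀ hm (by positivity)]
      have h5 := le_max_left ((n : ℝ) + 1) N
      have h6 := le_max_right ((n : ℝ) + 1) N
      linarith
    rw [h3] at h2
    linarith

theorem card_filter_le_of_rank {X : Finset ℤ} {x : ℤ → ℝ}
    (hx : ∀ t ∈ X, ((X.filter (fun u => x u ≤ x t)).card : ℝ) ≤ x t) {y : ℝ} (hy : 0 ≤ y) :
    ((X.filter (fun u => x u ≤ y)).card : ℝ) ≤ y := by
  rcases (X.filter (fun u => x u ≤ y)).eq_empty_or_nonempty with h | h
  · rw [h]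
    simpa using hy
  · obtain ⟨t, ht, hmax⟩ := exists_max_image _ x h
    have ht' := mem_filter.1 ht
    refine le_trans ?_ ((hx t ht'.1).trans ht'.2)
    have hsub : X.filter (fun u => x u ≤ y) ⊆ X.filter (fun u => x u ≤ x t) := by
      intro u hu
      exact mem_filter.2 ⟨(mem_filter.1 hu).1, hmax u hu⟩
    exact_mod_cast card_le_card hsub

theorem rank_filter {X : Finset ℤ} {x : ℤ → ℝ}
    (hx : ∀ t ∈ X, ((X.filter (fun u => x u ≤ x t)).card : ℝ) ≤ x t) (p : ℤ → Prop)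
    [DecidablePred p] :
    ∀ t ∈ X.filter p, (((X.filter p).filter (fun u => x u ≤ x t)).card : ℝ) ≤ x t := by
  intro t ht
  refine le_trans ?_ (hx t (mem_filter.1 ht).1)
  exact_mod_cast card_le_card (filter_subset_filter _ (filter_subset _ _))

/-- the numbers used below -/
theorem num1 : (256 : ℝ) ^ (1 / 100 : ℝ) ≤ 106 / 100 := by
  have h : (256 : ℝ) ≤ (106 / 100) ^ (100 : ℕ) := by norm_num
  calc (256 : ℝ) ^ (1 / 100 : ℝ) ≤ ((106 / 100 : ℝ) ^ (100 : ℕ)) ^ (1 / 100 : ℝ) :=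
        Real.rpow_le_rpow (by norm_num) h (by norm_num)
    _ = 106 / 100 := by
        rw [← Real.rpow_natCast, ← Real.rpow_mul (by norm_num)]
        norm_num

theorem num2 : (256 : ℝ) ^ (101 / 100 : ℝ) ≤ 272 := by
  have h1 : (256 : ℝ) ^ (101 / 100 : ℝ) = 256 * (256 : ℝ) ^ (1 / 100 : ℝ) := by
    rw [show (101 / 100 : ℝ) = 1 + 1 / 100 by norm_num, Real.rpow_add (by norm_num),
      Real.rpow_one]
  rw [h1]
  have := num1
  nlinarith

/-- **The one-dimensional estimate.** -/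
theorem H_lemma (X : Finset ℤ) (α x : ℤ → ℝ) (hα : ∀ t ∈ X, 0 < α t)
    (hx : ∀ t ∈ X, ((X.filter (fun u => x u ≤ x t)).card : ℝ) ≤ x t)
    (hw : ∀ t ∈ X, α t * (x t * α t) ^ (1 / 100 : ℝ) ≤ 1)
    (P Q : ℝ) (hP : P = ∑ t ∈ X, α t * (x t * α t) ^ (1 / 100 : ℝ))
    (hQ : Q = ∑ t ∈ X, √(α t * (x t * α t) ^ (1 / 100 : ℝ))) (hP1 : 1 ≤ P) :
    ∑ t ∈ X, α t ≤ 11654 / 10000 * P ^ (100 / 101 : ℝ) * (Q / P) ^ (1 / 64 : ℝ) := by
  have hx1 : ∀ t ∈ X, 1 ≤ x t := by
    intro t ht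
    refine le_trans ?_ (hx t ht)
    have : 0 < (X.filter (fun u => x u ≤ x t)).card := card_pos.2 ⟨t, mem_filter.2 ⟨ht, le_rfl⟩⟩
    exact_mod_cast this
  have hP0 : 0 < P := by linarith
  set w : ℤ → ℝ := fun t => α t * (x t * α t) ^ (1 / 100 : ℝ) with hwdef
  have hw0 : ∀ t ∈ X, 0 < w t := by
    intro t ht
    have h1 := hα t ht
    have h2 := hx1 t ht
    have h3 : 0 < x t * α t := by positivity
    simp only [hwdef]
    positivity
  have hw1 : ∀ t ∈ X, w t ≤ 1 := hw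
  have hPQ : P ≤ Q := by
    rw [hP, hQ]
    refine sum_le_sum fun t ht => ?_
    have h1 := (hw0 t ht).le
    have h2 := hw1 t ht
    refine Real.le_sqrt_of_sq_le ?_
    change w t ^ 2 ≤ w t
    nlinarith
  have hQ0 : 0 < Q := lt_of_lt_of_le hP0 hPQ
  set ξ : ℝ := P ^ (100 / 101 : ℝ) / 256 with hξ
  have hξ0 : 0 < ξ := by positivity
  set N1 : ℝ := ξ ^ (101 / 100 : ℝ) with hN1
  have hN10 : 0 < N1 := by positivity
  have hN1P : N1 = P / (256 : ℝ) ^ (101 / 100 : ℝ) := by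
    rw [hN1, hξ, Real.div_rpow (by positivity) (by norm_num), ← Real.rpow_mul hP0.le]
    norm_num
  set L : ℝ := Q ^ 2 / N1 with hL
  have hL0 : 0 < L := by positivity
  -- pointwise bound
  have hpt : ∀ t ∈ X, α t ≤ w t * (ξ ^ (1 / 100 : ℝ))⁻¹ +
      (if x t ≤ N1 then (x t) ^ (-(1 / 101) : ℝ) else 0) +
      (if x t ≤ L then ξ * (1 / max (x t) N1) else 0) + √(w t) * (ξ / Q) := by
    intro t ht
    have hαt := hα t ht
    have hxt := hx1 t ht
    have hx0 : 0 < x t := by linarith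
    have hwt := hw0 t ht
    have hwt1 := hw1 t ht
    have hxa : 0 < x t * α t := by positivity
    have hmax : 0 < max (x t) N1 := lt_max_of_lt_right hN10
    have n1 : 0 ≤ w t * (ξ ^ (1 / 100 : ℝ))⁻¹ := by positivity
    have n2 : 0 ≤ (if x t ≤ N1 then (x t) ^ (-(1 / 101) : ℝ) else 0) := by
      split_ifs
      · positivity
      · exact le_rfl
    have n3 : 0 ≤ (if x t ≤ L then ξ * (1 / max (x t) N1) else 0) := by
      split_ifs
      · positivity
      · exact le_rfl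
    have n4 : 0 ≤ √(w t) * (ξ / Q) := by positivity
    rcases le_or_gt ξ (x t * α t) with h1 | h1
    · -- first case
      have h2 : ξ ^ (1 / 100 : ℝ) ≤ (x t * α t) ^ (1 / 100 : ℝ) :=
        Real.rpow_le_rpow hξ0.le h1 (by norm_num)
      have h3 : α t ≤ w t * (ξ ^ (1 / 100 : ℝ))⁻¹ := by
        rw [← div_eq_mul_inv, le_div_iff₀ (by positivity)]
        exact mul_le_mul_of_nonneg_left h2 hαt.le
      linarith
    rcases le_or_gt (x t) N1 with h2 | h2
    · -- second case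
      have h3 : α t ≤ (x t) ^ (-(1 / 101) : ℝ) := by
        have e1 : w t = (α t) ^ (101 / 100 : ℝ) * (x t) ^ (1 / 100 : ℝ) := by
          simp only [hwdef]
          rw [Real.mul_rpow hx0.le hαt.le,
            show (101 / 100 : ℝ) = 1 + 1 / 100 by norm_num, Real.rpow_add hαt, Real.rpow_one]
          ring
        have e2 : (α t) ^ (101 / 100 : ℝ) ≤ (x t) ^ (-(1 / 100) : ℝ) := by
          rw [Real.rpow_neg hx0.le, ← one_div, le_div_iff₀ (by positivity), ← e1]
          exact hwt1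
        have e3 : ((α t) ^ (101 / 100 : ℝ)) ^ (100 / 101 : ℝ) ≤
            ((x t) ^ (-(1 / 100) : ℝ)) ^ (100 / 101 : ℝ) :=
          Real.rpow_le_rpow (by positivity) e2 (by norm_num)
        rw [← Real.rpow_mul hαt.le, ← Real.rpow_mul hx0.le] at e3
        norm_num at e3 ⊢
        exact e3
      rw [if_pos h2] at n2 ⊢
      linarith
    rcases le_or_gt (x t) L with h3 | h3
    · -- third case
      have h4 : α t ≤ ξ * (1 / max (x t) N1) := by
        rw [max_eq_left h2.le, mul_one_div, le_div_iff₀ hx0, mul_comm]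
        exact h1.le
      rw [if_pos h3] at n3 ⊢
      linarith
    · -- fourth case
      have h4 : α t ^ 2 ≤ w t * (ξ / Q) ^ 2 := by
        have e1 : α t ^ 2 = w t * ((x t * α t) ^ (99 / 100 : ℝ) / x t) := by
          simp only [hwdef]
          have e2 : (x t * α t) ^ (1 / 100 : ℝ) * (x t * α t) ^ (99 / 100 : ℝ) = x t * α t := by
            rw [← Real.rpow_add hxa]
            norm_num
          have e3 : α t * (x t * α t) ^ (1 / 100 : ℝ) * ((x t * α t) ^ (99 / 100 : ℝ) / x t) =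
              α t * ((x t * α t) ^ (1 / 100 : ℝ) * (x t * α t) ^ (99 / 100 : ℝ)) / x t := by ring
          rw [e3, e2]
          field_simp
        rw [e1]
        refine mul_le_mul_of_nonneg_left ?_ hwt.le
        have e4 : (x t * α t) ^ (99 / 100 : ℝ) ≤ ξ ^ (99 / 100 : ℝ) :=
          Real.rpow_le_rpow hxa.le h1.le (by norm_num)
        have e5 : ξ ^ (99 / 100 : ℝ) / L = (ξ / Q) ^ 2 := by
          rw [hL, hN1]
          have e6 : ξ ^ (99 / 100 : ℝ) * ξ ^ (101 / 100 : ℝ) = ξ ^ 2 := by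
            rw [← Real.rpow_add hξ0, ← Real.rpow_natCast]
            norm_num
          rw [div_div_eq_mul_div, e6, ← div_pow]
        rw [← e5]
        exact div_le_div₀ (by positivity) e4 hL0 h3.le
      have h5 : α t ≤ √(w t) * (ξ / Q) := by
        have e1 : α t = √(α t ^ 2) := (Real.sqrt_sq hαt.le).symm
        rw [e1]
        have e2 : √(w t) * (ξ / Q) = √(w t * (ξ / Q) ^ 2) := by
          rw [Real.sqrt_mul hwt.le, Real.sqrt_sq (by positivity)]
        rw [e2]
        exact Real.sqrt_le_sqrt h4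
      linarith
  have hsum := sum_le_sum hpt
  rw [sum_add_distrib, sum_add_distrib, sum_add_distrib, ← sum_mul, ← sum_mul, ← sum_filter,
    ← sum_filter] at hsum
  have hsP : ∑ t ∈ X, w t = P := hP.symm
  have hsQ : ∑ t ∈ X, √(w t) = Q := hQ.symm
  rw [hsP, hsQ] at hsum
  -- second sum
  have hS2 : ∑ t ∈ X.filter (fun t => x t ≤ N1), (x t) ^ (-(1 / 101) : ℝ) ≤ 101 / 100 * ξ := by
    have h1 := sorted_sum (X.filter (fun t => x t ≤ N1)).card (X.filter (fun t => x t ≤ N1)) x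
      (fun y => y ^ (-(1 / 101) : ℝ)) rfl (rank_filter hx _)
      (fun y z hy hyz => Real.rpow_le_rpow_of_nonpos hy hyz (by norm_num))
    refine h1.trans ((sum_rpow _).trans ?_)
    refine mul_le_mul_of_nonneg_left ?_ (by norm_num)
    have h2 := card_filter_le_of_rank hx hN10.le
    calc ((X.filter (fun t => x t ≤ N1)).card : ℝ) ^ (100 / 101 : ℝ) ≤ N1 ^ (100 / 101 : ℝ) :=
          Real.rpow_le_rpow (Nat.cast_nonneg _) h2 (by norm_num)
      _ = ξ := by
          rw [hN1, ← Real.rpow_mul hξ0.le]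
          norm_num
  -- third sum
  have hS3 : ∑ t ∈ X.filter (fun t => x t ≤ L), ξ * (1 / max (x t) N1) ≤
      ξ * (2 * Real.log ((L + N1) / N1)) := by
    rw [← mul_sum]
    refine mul_le_mul_of_nonneg_left ?_ hξ0.le
    have h1 := sorted_sum (X.filter (fun t => x t ≤ L)).card (X.filter (fun t => x t ≤ L)) x
      (fun y => 1 / max y N1) rfl (rank_filter hx _)
      (fun y z hy hyz => by
        apply one_div_le_one_div_of_le (lt_max_of_lt_left hy)
        exact max_le_max hyz le_rfl)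
    refine h1.trans ((sum_inv_max N1 hN10 _).trans ?_)
    refine mul_le_mul_of_nonneg_left ?_ (by norm_num)
    apply Real.log_le_log (by positivity)
    have h2 := card_filter_le_of_rank hx hL0.le
    gcongr
  -- the logarithm
  set y : ℝ := Q / P with hy
  have hy1 : 1 ≤ y := (one_le_div hP0).2 hPQ
  have hy0 : 0 < y := by linarith
  have hlog : Real.log ((L + N1) / N1) ≤ 2 * (62384 / 10000 + Real.log y) := by
    have h1 : (L + N1) / N1 = ((256 : ℝ) ^ (101 / 100 : ℝ) * y) ^ 2 + 1 := by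
      rw [hL, add_div, div_self hN10.ne', hN1P, hy]
      field_simp
    have h2 : ((256 : ℝ) ^ (101 / 100 : ℝ) * y) ^ 2 + 1 ≤ (512 * y) ^ 2 := by
      have h3 : (256 : ℝ) ^ (101 / 100 : ℝ) * y ≤ 272 * y :=
        mul_le_mul_of_nonneg_right num2 hy0.le
      have h4 : 0 ≤ (256 : ℝ) ^ (101 / 100 : ℝ) * y := by positivity
      nlinarith
    rw [h1]
    have h5 : Real.log (((256 : ℝ) ^ (101 / 100 : ℝ) * y) ^ 2 + 1) ≤ Real.log ((512 * y) ^ 2) :=
      Real.log_le_log (by positivity) h2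
    refine h5.trans ?_
    rw [Real.log_pow, Real.log_mul (by norm_num) hy0.ne',
      show (512 : ℝ) = 2 ^ (9 : ℕ) by norm_num, Real.log_pow]
    have := Real.log_two_lt_d9
    push_cast
    linarith
  have hlogy : 0 ≤ Real.log y := Real.log_nonneg hy1
  -- first sum
  have hS1 : P * (ξ ^ (1 / 100 : ℝ))⁻¹ ≤ 106 / 100 * P ^ (100 / 101 : ℝ) := by
    have h1 : ξ ^ (1 / 100 : ℝ) = P ^ (1 / 101 : ℝ) / (256 : ℝ) ^ (1 / 100 : ℝ) := by
      rw [hξ, Real.div_rpow (by positivity) (by norm_num), ← Real.rpow_mul hP0.le]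
      norm_num
    have h2 : P = P ^ (100 / 101 : ℝ) * P ^ (1 / 101 : ℝ) := by
      rw [← Real.rpow_add hP0]
      norm_num
    rw [h1, inv_div]
    have h3 : P * ((256 : ℝ) ^ (1 / 100 : ℝ) / P ^ (1 / 101 : ℝ)) =
        (256 : ℝ) ^ (1 / 100 : ℝ) * P ^ (100 / 101 : ℝ) := by
      rw [← mul_div_assoc, div_eq_iff (by positivity)]
      nth_rewrite 1 [h2]
      ring
    rw [h3]
    exact mul_le_mul_of_nonneg_right num1 (by positivity)
  have hS4 : Q * (ξ / Q) = ξ := by field_simp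
  rw [hS4] at hsum
  set p : ℝ := P ^ (100 / 101 : ℝ) with hp
  have hp0 : 0 < p := by positivity
  have hξp : ξ = p / 256 := hξ
  have hlog2 : ξ * (2 * Real.log ((L + N1) / N1)) ≤
      ξ * (2 * (2 * (62384 / 10000 + Real.log y))) := by
    refine mul_le_mul_of_nonneg_left ?_ hξ0.le
    linarith
  have htot : ∑ t ∈ X, α t ≤ p * (11654 / 10000 + Real.log y / 64) := by
    have h1 : ∑ t ∈ X, α t ≤ 106 / 100 * p + 101 / 100 * ξ +
        ξ * (2 * (2 * (62384 / 10000 + Real.log y))) + ξ := by linarith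
    refine h1.trans ?_
    rw [hξp]
    nlinarith [mul_nonneg hp0.le hlogy]
  have hfin : 11654 / 10000 + Real.log y / 64 ≤ 11654 / 10000 * y ^ (1 / 64 : ℝ) := by
    have h1 : y ^ (1 / 64 : ℝ) = Real.exp (Real.log y / 64) := by
      rw [Real.rpow_def_of_pos hy0]
      congr 1
      ring
    rw [h1]
    have h2 := Real.add_one_le_exp (Real.log y / 64)
    nlinarith
  calc ∑ t ∈ X, α t ≤ p * (11654 / 10000 + Real.log y / 64) := htot
    _ ≤ p * (11654 / 10000 * y ^ (1 / 64 : ℝ)) := mul_le_mul_of_nonneg_left hfin hp0.le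
    _ = 11654 / 10000 * p * y ^ (1 / 64 : ℝ) := by ring

end Pool.Agent.TH83.PFR
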