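import Pool.Agent.TH83.PFR.OneD

/-!
Induction on the dimension.
-/

set_option autoImplicit false

open Finset
open scoped Pointwise

namespace Pool.Agent.TH83.PFR

/-- projection to the first coordinate -/
def pr {n : ℕ} (A : Finset (Fin (n + 1) → ℤ)) : Finset ℤ := A.image (fun v => v 0)

/-- the fibre over a first coordinate -/
def fib {n : ℕ} (A : Finset (Fin (n + 1) → ℤ)) (t : ℤ) : Finset (Fin n → ℤ) :=
  (A.filter (fun v => v 0 = t)).image Fin.tail

theorem mem_pr {n : ℕ} {A : Finset (Fin (n + 1) → ℤ)} {t : ℤ} :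
    t ∈ pr A ↔ ∃ v ∈ A, v 0 = t := by
  simp [pr]

theorem mem_fib {n : ℕ} {A : Finset (Fin (n + 1) → ℤ)} {t : ℤ} {v : Fin n → ℤ} :
    v ∈ fib A t ↔ (Fin.cons t v : Fin (n + 1) → ℤ) ∈ A := by
  unfold fib
  rw [mem_image]
  constructor
  · rintro ⟨w, hw, rfl⟩
    rw [mem_filter] at hw
    have : (Fin.cons t (Fin.tail w) : Fin (n + 1) → ℤ) = w := by
      rw [← hw.2]
      exact Fin.cons_self_tail w
    rw [this]
    exact hw.1
  · intro h
    exact ⟨Fin.cons t v, mem_filter.2 ⟨h, by simp⟩, by simp⟩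

theorem card_fib {n : ℕ} (A : Finset (Fin (n + 1) → ℤ)) (t : ℤ) :
    (fib A t).card = (A.filter (fun v => v 0 = t)).card := by
  unfold fib
  refine card_image_of_injOn ?_
  intro v hv w hw h
  have hv' := (mem_filter.1 hv).2
  have hw' := (mem_filter.1 hw).2
  rw [← Fin.cons_self_tail v, ← Fin.cons_self_tail w, hv', hw', h]

theorem sum_card_fib {n : ℕ} (A : Finset (Fin (n + 1) → ℤ)) :
    ∑ t ∈ pr A, (fib A t).card = A.card := by
  simp_rw [card_fib]
  exact (card_eq_sum_card_image (fun v : Fin (n + 1) → ℤ => v 0) A).symm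

theorem fib_nonempty {n : ℕ} {A : Finset (Fin (n + 1) → ℤ)} {t : ℤ} (ht : t ∈ pr A) :
    (fib A t).Nonempty := by
  obtain ⟨v, hv, h⟩ := mem_pr.1 ht
  refine ⟨Fin.tail v, mem_fib.2 ?_⟩
  rw [← h, Fin.cons_self_tail]
  exact hv

theorem pr_nonempty {n : ℕ} {A : Finset (Fin (n + 1) → ℤ)} (hA : A.Nonempty) :
    (pr A).Nonempty := hA.image _

theorem pr_add {n : ℕ} (A B : Finset (Fin (n + 1) → ℤ)) : pr (A + B) = pr A + pr B := by
  ext t
  simp only [mem_pr, mem_add]
  constructor
  · rintro ⟨v, ⟨a, ha, b, hb, rfl⟩, rfl⟩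
    exact ⟨a 0, ⟨a, ha, rfl⟩, b 0, ⟨b, hb, rfl⟩, rfl⟩
  · rintro ⟨s, ⟨a, ha, rfl⟩, u, ⟨b, hb, rfl⟩, rfl⟩
    exact ⟨a + b, ⟨a, ha, b, hb, rfl⟩, rfl⟩

theorem fib_add_subset {n : ℕ} (A B : Finset (Fin (n + 1) → ℤ)) (t u : ℤ) :
    fib A t + fib B u ⊆ fib (A + B) (t + u) := by
  intro v hv
  obtain ⟨a, ha, b, hb, rfl⟩ := mem_add.1 hv
  rw [mem_fib] at ha hb ⊢
  have h : (Fin.cons (t + u) (a + b) : Fin (n + 1) → ℤ) =
      (Fin.cons t a : Fin (n + 1) → ℤ) + (Fin.cons u b : Fin (n + 1) → ℤ) := by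
    funext i
    refine Fin.cases ?_ (fun j => ?_) i
    · simp
    · simp
  rw [h]
  exact add_mem_add ha hb

/-- the tree volume of a finite set in `ℤⁿ` -/
def V : (n : ℕ) → Finset (Fin n → ℤ) → ℕ
  | 0, A => A.card
  | (n + 1), A => (pr A).sup fun t =>
      ((pr A).filter (fun u => V n (fib A t) ≤ V n (fib A u))).card * V n (fib A t)

theorem V_zero (A : Finset (Fin 0 → ℤ)) : V 0 A = A.card := rfl

theorem V_succ (n : ℕ) (A : Finset (Fin (n + 1) → ℤ)) : V (n + 1) A = (pr A).sup fun t =>
      ((pr A).filter (fun u => V n (fib A t) ≤ V n (fib A u))).card * V n (fib A t) := rfl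

theorem V_pos : ∀ (n : ℕ) (A : Finset (Fin n → ℤ)), A.Nonempty → 0 < V n A
  | 0, A, hA => card_pos.2 hA
  | (n + 1), A, hA => by
      obtain ⟨t, ht⟩ := pr_nonempty hA
      have h1 := V_pos n (fib A t) (fib_nonempty ht)
      have h2 : ((pr A).filter (fun u => V n (fib A t) ≤ V n (fib A u))).card * V n (fib A t) ≤
          V (n + 1) A :=
        le_sup (f := fun t =>
          ((pr A).filter (fun u => V n (fib A t) ≤ V n (fib A u))).card * V n (fib A t)) ht
      have h3 : 0 < ((pr A).filter (fun u => V n (fib A t) ≤ V n (fib A u))).card :=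
        card_pos.2 ⟨t, mem_filter.2 ⟨ht, le_rfl⟩⟩
      exact lt_of_lt_of_le (Nat.mul_pos h3 h1) h2

theorem V_le_card : ∀ (n : ℕ) (A : Finset (Fin n → ℤ)), V n A ≤ A.card
  | 0, A => le_rfl
  | (n + 1), A => by
      rw [V_succ]
      refine Finset.sup_le fun t _ => ?_
      have h1 : ((pr A).filter (fun u => V n (fib A t) ≤ V n (fib A u))).card * V n (fib A t) ≤
          ∑ u ∈ (pr A).filter (fun u => V n (fib A t) ≤ V n (fib A u)), V n (fib A u) := by
        rw [← smul_eq_mul]
        exact card_nsmul_le_sum _ _ _ fun u hu => (mem_filter.1 hu).2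
      have h2 : ∑ u ∈ (pr A).filter (fun u => V n (fib A t) ≤ V n (fib A u)), V n (fib A u) ≤
          ∑ u ∈ pr A, V n (fib A u) := sum_le_sum_of_subset (filter_subset _ _)
      have h3 : ∑ u ∈ pr A, V n (fib A u) ≤ ∑ u ∈ pr A, (fib A u).card :=
        sum_le_sum fun u _ => V_le_card n _
      rw [sum_card_fib] at h3
      exact h1.trans (h2.trans h3)

/-- **Main inequality.** -/
theorem main_ineq : ∀ (n : ℕ) (A B : Finset (Fin n → ℤ)), A.Nonempty → B.Nonempty →
    ((A.card : ℝ) * B.card) ^ (101 / 100 : ℝ) ≤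
      ((A + B).card : ℝ) ^ 2 * ((V n A : ℝ) * V n B) ^ (1 / 100 : ℝ)
  | 0, A, B, hA, hB => by
      have h1 : A.card = 1 := le_antisymm (card_le_one_of_subsingleton A) (card_pos.2 hA)
      have h2 : B.card = 1 := le_antisymm (card_le_one_of_subsingleton B) (card_pos.2 hB)
      have h3 : (A + B).card = 1 :=
        le_antisymm (card_le_one_of_subsingleton _) (card_pos.2 (hA.add hB))
      rw [V_zero, V_zero, h1, h2, h3]
      norm_num
  | (n + 1), A, B, hA, hB => by
      have hVA := V_pos (n + 1) A hA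
      have hVB := V_pos (n + 1) B hB
      have hVA' : (0 : ℝ) < V (n + 1) A := by exact_mod_cast hVA
      have hVB' : (0 : ℝ) < V (n + 1) B := by exact_mod_cast hVB
      set W : ℝ := ((V (n + 1) A : ℝ) * V (n + 1) B) ^ (1 / 100 : ℝ) with hW
      have hW0 : 0 < W := by positivity
      have hrank : ∀ (C : Finset (Fin (n + 1) → ℤ)), C.Nonempty →
          Rank (pr C) (fun t => (V (n + 1) C : ℝ) / V n (fib C t)) := by
        intro C hC t ht
        have h1 : (0 : ℝ) < V n (fib C t) := by exact_mod_cast V_pos n _ (fib_nonempty ht)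
        have h4 : (0 : ℝ) < V (n + 1) C := by exact_mod_cast V_pos (n + 1) C hC
        have h2 : ((pr C).filter (fun u => V n (fib C t) ≤ V n (fib C u))).card * V n (fib C t) ≤
            V (n + 1) C :=
          le_sup (f := fun t =>
            ((pr C).filter (fun u => V n (fib C t) ≤ V n (fib C u))).card * V n (fib C t)) ht
        have h3 : (pr C).filter (fun u => (V (n + 1) C : ℝ) / V n (fib C u) ≤
            (V (n + 1) C : ℝ) / V n (fib C t)) =
            (pr C).filter (fun u => V n (fib C t) ≤ V n (fib C u)) := by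
          refine filter_congr fun u hu => ?_
          have h5 : (0 : ℝ) < V n (fib C u) := by exact_mod_cast V_pos n _ (fib_nonempty hu)
          rw [div_le_div_iff_of_pos_left h4 h5 h1]
          exact Nat.cast_le
        simp only
        rw [h3, le_div_iff₀ h1]
        exact_mod_cast h2
      have hcard : ∀ (C : Finset (Fin (n + 1) → ℤ)),
          ∑ t ∈ pr C, ((fib C t).card : ℝ) = C.card := by
        intro C
        rw [← Nat.cast_sum, sum_card_fib]
      have key := oneD (pr A) (pr B) (fun t => ((fib A t).card : ℝ))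
        (fun t => (V (n + 1) A : ℝ) / V n (fib A t)) (fun t => ((fib B t).card : ℝ))
        (fun t => (V (n + 1) B : ℝ) / V n (fib B t))
        (fun s => ((fib (A + B) s).card : ℝ) * √W) (pr_nonempty hA) (pr_nonempty hB)
        (fun t ht => by exact_mod_cast card_pos.2 (fib_nonempty ht)) (hrank A hA)
        (fun t ht => by exact_mod_cast card_pos.2 (fib_nonempty ht)) (hrank B hB)
        (fun s => by positivity)
        (fun t ht u hu => by
          have ha : (0 : ℝ) < (fib A t).card := by exact_mod_cast card_pos.2 (fib_nonempty ht)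
          have hb : (0 : ℝ) < (fib B u).card := by exact_mod_cast card_pos.2 (fib_nonempty hu)
          have hv : (0 : ℝ) < V n (fib A t) := by exact_mod_cast V_pos n _ (fib_nonempty ht)
          have hw : (0 : ℝ) < V n (fib B u) := by exact_mod_cast V_pos n _ (fib_nonempty hu)
          have ih := main_ineq n (fib A t) (fib B u) (fib_nonempty ht) (fib_nonempty hu)
          have hsub : ((fib A t + fib B u).card : ℝ) ≤ ((fib (A + B) (t + u)).card : ℝ) := by
            exact_mod_cast card_le_card (fib_add_subset A B t u)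
          rw [wt_eq ha (by positivity), wt_eq hb (by positivity), mul_pow, Real.sq_sqrt hW0.le]
          set a : ℝ := ((fib A t).card : ℝ)
          set b : ℝ := ((fib B u).card : ℝ)
          set v : ℝ := (V n (fib A t) : ℝ)
          set w : ℝ := (V n (fib B u) : ℝ)
          set m : ℝ := ((fib A t + fib B u).card : ℝ)
          set m' : ℝ := ((fib (A + B) (t + u)).card : ℝ)
          have hm0 : 0 ≤ m := Nat.cast_nonneg _
          have e1 : a ^ (101 / 100 : ℝ) * (↑(V (n + 1) A) / v) ^ (1 / 100 : ℝ) *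
              (b ^ (101 / 100 : ℝ) * (↑(V (n + 1) B) / w) ^ (1 / 100 : ℝ)) =
              (a * b) ^ (101 / 100 : ℝ) * (W / (v * w) ^ (1 / 100 : ℝ)) := by
            rw [Real.mul_rpow ha.le hb.le, hW, Real.mul_rpow hv.le hw.le,
              Real.mul_rpow hVA'.le hVB'.le, Real.div_rpow hVA'.le hv.le,
              Real.div_rpow hVB'.le hw.le]
            ring
          rw [e1]
          have h1 : (a * b) ^ (101 / 100 : ℝ) ≤ m' ^ 2 * (v * w) ^ (1 / 100 : ℝ) :=
            ih.trans (mul_le_mul_of_nonneg_right (pow_le_pow_left₀ hm0 hsub 2) (by positivity))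
          calc (a * b) ^ (101 / 100 : ℝ) * (W / (v * w) ^ (1 / 100 : ℝ)) ≤
              (m' ^ 2 * (v * w) ^ (1 / 100 : ℝ)) * (W / (v * w) ^ (1 / 100 : ℝ)) :=
                mul_le_mul_of_nonneg_right h1 (by positivity)
            _ = m' ^ 2 * W := by
                have : (v * w) ^ (1 / 100 : ℝ) ≠ 0 := by positivity
                field_simp)
      simp only [hcard] at key
      rw [← pr_add, ← sum_mul, hcard, mul_pow, Real.sq_sqrt hW0.le] at key
      exact key

/-- down-sets in `ℕⁿ` -/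
def IsDown {n : ℕ} (D : Finset (Fin n → ℤ)) : Prop :=
  (∀ x ∈ D, 0 ≤ x) ∧ ∀ x ∈ D, ∀ y, 0 ≤ y → y ≤ x → y ∈ D

theorem IsDown.fib {n : ℕ} {D : Finset (Fin (n + 1) → ℤ)} (hD : IsDown D) (t : ℤ) :
    IsDown (fib D t) := by
  constructor
  · intro x hx i
    have h := hD.1 _ (mem_fib.1 hx) i.succ
    simpa using h
  · intro x hx y hy hyx
    rw [mem_fib] at hx ⊢
    refine hD.2 _ hx _ ?_ ?_
    · intro i
      refine Fin.cases ?_ (fun j => ?_) i
      · have h := hD.1 _ hx 0
        simpa using h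
      · simpa using hy j
    · intro i
      refine Fin.cases ?_ (fun j => ?_) i
      · simp
      · simpa using hyx j

theorem V_down : ∀ (n : ℕ) (D : Finset (Fin n → ℤ)), D.Nonempty → IsDown D →
    ∃ x ∈ D, (V n D : ℤ) ≤ ∏ i, (1 + x i)
  | 0, D, hne, hD => by
      obtain ⟨x, hx⟩ := hne
      refine ⟨x, hx, ?_⟩
      rw [V_zero]
      simpa using card_le_one_of_subsingleton D
  | (n + 1), D, hne, hD => by
      obtain ⟨t, ht, hsup⟩ := exists_mem_eq_sup (pr D) (pr_nonempty hne) (fun t =>
        ((pr D).filter (fun u => V n (fib D t) ≤ V n (fib D u))).card * V n (fib D t))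
      rw [← V_succ] at hsup
      set F := (pr D).filter (fun u => V n (fib D t) ≤ V n (fib D u)) with hF
      have hFne : F.Nonempty := ⟨t, mem_filter.2 ⟨ht, le_rfl⟩⟩
      obtain ⟨s, hs, hmax⟩ := exists_max_image F id hFne
      have hs' := mem_filter.1 hs
      obtain ⟨x, hx, hVx⟩ := V_down n (fib D s) (fib_nonempty hs'.1) (hD.fib s)
      have hs0 : 0 ≤ s := by
        obtain ⟨v, hv, hv0⟩ := mem_pr.1 hs'.1
        rw [← hv0]
        exact hD.1 v hv 0
      have hcard : (F.card : ℤ) ≤ 1 + s := by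
        have h1 : F ⊆ Icc 0 s := by
          intro u hu
          have hu' := mem_filter.1 hu
          obtain ⟨v, hv, hv0⟩ := mem_pr.1 hu'.1
          refine mem_Icc.2 ⟨?_, hmax u hu⟩
          rw [← hv0]
          exact hD.1 v hv 0
        have h2 := card_le_card h1
        rw [Int.card_Icc] at h2
        have h3 : ((s + 1 - 0).toNat : ℤ) = s + 1 - 0 := Int.toNat_of_nonneg (by omega)
        have h4 : (F.card : ℤ) ≤ ((s + 1 - 0).toNat : ℤ) := by exact_mod_cast h2
        omega
      refine ⟨Fin.cons s x, mem_fib.1 hx, ?_⟩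
      rw [Fin.prod_univ_succ]
      simp only [Fin.cons_zero, Fin.cons_succ]
      rw [hsup]
      push_cast
      have h5 : (V n (fib D t) : ℤ) ≤ ∏ i, (1 + x i) := by
        refine le_trans ?_ hVx
        exact_mod_cast hs'.2
      exact mul_le_mul hcard h5 (by positivity) (by omega)

end Pool.Agent.TH83.PFR
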