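import Mathlib

/-!
Two elementary summation lemmas: level sets of a sup-convolution on `ℤ`, and sums of antitone functions
over points which are sparse.
-/

set_option autoImplicit false

open Finset
open scoped Pointwise

namespace Pool.Agent.TH83.PFR

/-- Level sets: if `h (t + u) ≥ min (F t) (G u)` and `F`, `G` have the same maximum `κ`, then the sum of
`h` over the sumset is at least `∑ F + ∑ G - κ`. -/
theorem level_sum (n : ℕ) : ∀ (X Y : Finset ℤ) (F G h : ℤ → ℝ) (κ : ℝ), X.card + Y.card ≤ n →
    (∀ t ∈ X, 0 ≤ F t ∧ F t ≤ κ) → (∀ u ∈ Y, 0 ≤ G u ∧ G u ≤ κ) →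
    (∃ t ∈ X, F t = κ) → (∃ u ∈ Y, G u = κ) →
    (∀ t ∈ X, ∀ u ∈ Y, min (F t) (G u) ≤ h (t + u)) →
    ∑ t ∈ X, F t + ∑ u ∈ Y, G u - κ ≤ ∑ s ∈ X + Y, h s := by
  induction n with
  | zero =>
    intro X Y F G h κ hn _ _ hX _ _
    obtain ⟨t, ht, _⟩ := hX
    have : 0 < X.card := card_pos.2 ⟨t, ht⟩
    omega
  | succ n ih =>
    intro X Y F G h κ hn hF hG hX hY hh
    obtain ⟨t0, ht0, hFt0⟩ := hX
    obtain ⟨u0, hu0, hGu0⟩ := hY
    have hXne : X.Nonempty := ⟨t0, ht0⟩
    have hYne : Y.Nonempty := ⟨u0, hu0⟩
    obtain ⟨t1, ht1, hmin1⟩ := exists_min_image X F hXne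
    obtain ⟨u1, hu1, hmin2⟩ := exists_min_image Y G hYne
    set m : ℝ := min (F t1) (G u1) with hm
    have hm0 : 0 ≤ m := le_min (hF t1 ht1).1 (hG u1 hu1).1
    have hmF : ∀ t ∈ X, m ≤ F t := fun t ht => (min_le_left _ _).trans (hmin1 t ht)
    have hmG : ∀ u ∈ Y, m ≤ G u := fun u hu => (min_le_right _ _).trans (hmin2 u hu)
    have hmh : ∀ s ∈ X + Y, m ≤ h s := by
      intro s hs
      obtain ⟨t, ht, u, hu, rfl⟩ := mem_add.1 hs
      exact (le_min (hmF t ht) (hmG u hu)).trans (hh t ht u hu)
    have hcd : X.card + Y.card - 1 ≤ (X + Y).card :=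
      cauchy_davenport_add_of_linearOrder_isCancelAdd hXne hYne
    have hcdR : (X.card : ℝ) + Y.card - 1 ≤ (X + Y).card := by
      have h1 : X.card + Y.card ≤ (X + Y).card + 1 := by omega
      have h2 : ((X.card + Y.card : ℕ) : ℝ) ≤ (((X + Y).card + 1 : ℕ) : ℝ) := by exact_mod_cast h1
      push_cast at h2
      linarith
    set X0 := X.filter (fun t => m < F t) with hX0
    set Y0 := Y.filter (fun u => m < G u) with hY0
    have hSX : ∑ t ∈ X0, (F t - m) = ∑ t ∈ X, (F t - m) := by
      rw [hX0, sum_filter]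
      refine sum_congr rfl fun t ht => ?_
      split_ifs with h1
      · rfl
      · have := hmF t ht
        linarith
    have hSY : ∑ u ∈ Y0, (G u - m) = ∑ u ∈ Y, (G u - m) := by
      rw [hY0, sum_filter]
      refine sum_congr rfl fun u hu => ?_
      split_ifs with h1
      · rfl
      · have := hmG u hu
        linarith
    have hSX' : ∑ t ∈ X, (F t - m) = ∑ t ∈ X, F t - X.card * m := by
      rw [sum_sub_distrib, sum_const, nsmul_eq_mul]
    have hSY' : ∑ u ∈ Y, (G u - m) = ∑ u ∈ Y, G u - Y.card * m := by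
      rw [sum_sub_distrib, sum_const, nsmul_eq_mul]
    have hSh : ∑ s ∈ X + Y, (h s - m) = ∑ s ∈ X + Y, h s - (X + Y).card * m := by
      rw [sum_sub_distrib, sum_const, nsmul_eq_mul]
    rcases eq_or_lt_of_le (hmF t0 ht0) with hκ | hκ
    · -- all values are `κ`
      have hκm : κ = m := by rw [← hFt0, ← hκ]
      have h1 : ∑ t ∈ X, F t = X.card * m := by
        rw [← nsmul_eq_mul, ← sum_const]
        exact sum_congr rfl fun t ht => le_antisymm (hκm ▸ (hF t ht).2) (hmF t ht)
      have h2 : ∑ u ∈ Y, G u = Y.card * m := by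
        rw [← nsmul_eq_mul, ← sum_const]
        exact sum_congr rfl fun u hu => le_antisymm (hκm ▸ (hG u hu).2) (hmG u hu)
      have h3 : (X + Y).card * m ≤ ∑ s ∈ X + Y, h s := by
        rw [← nsmul_eq_mul, ← sum_const]
        exact sum_le_sum hmh
      have h4 : ((X.card : ℝ) + Y.card - 1) * m ≤ (X + Y).card * m :=
        mul_le_mul_of_nonneg_right hcdR hm0
      rw [h1, h2, hκm]
      linarith
    · rw [hFt0] at hκ
      have hX0ne : ∃ t ∈ X0, F t - m = κ - m := ⟨t0, mem_filter.2 ⟨ht0, hFt0 ▸ hκ⟩, by rw [hFt0]⟩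
      have hY0ne : ∃ u ∈ Y0, G u - m = κ - m := ⟨u0, mem_filter.2 ⟨hu0, hGu0 ▸ hκ⟩, by rw [hGu0]⟩
      have hcard : X0.card + Y0.card ≤ n := by
        rcases min_choice (F t1) (G u1) with hc | hc
        · have h1 : X0.card < X.card := by
            apply card_lt_card
            refine ⟨filter_subset _ _, fun hsub => ?_⟩
            have h2 := (mem_filter.1 (hsub ht1)).2
            rw [← hc, ← hm] at h2
            exact absurd h2 (lt_irrefl _)
          have h3 : Y0.card ≤ Y.card := card_le_card (filter_subset _ _)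
          omega
        · have h1 : Y0.card < Y.card := by
            apply card_lt_card
            refine ⟨filter_subset _ _, fun hsub => ?_⟩
            have h2 := (mem_filter.1 (hsub hu1)).2
            rw [← hc, ← hm] at h2
            exact absurd h2 (lt_irrefl _)
          have h3 : X0.card ≤ X.card := card_le_card (filter_subset _ _)
          omega
      have hI := ih X0 Y0 (fun t => F t - m) (fun u => G u - m) (fun s => h s - m) (κ - m) hcard
        (fun t ht => ⟨by
            have := (mem_filter.1 ht).2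
            linarith, by
            have := (hF t (mem_filter.1 ht).1).2
            linarith⟩)
        (fun u hu => ⟨by
            have := (mem_filter.1 hu).2
            linarith, by
            have := (hG u (mem_filter.1 hu).1).2
            linarith⟩) hX0ne hY0ne
        (fun t ht u hu => by
          have h1 := hh t (mem_filter.1 ht).1 u (mem_filter.1 hu).1
          rw [min_sub_sub_right]
          linarith)
      have hsub : X0 + Y0 ⊆ X + Y := add_subset_add (filter_subset _ _) (filter_subset _ _)
      have h5 : ∑ s ∈ X0 + Y0, (h s - m) ≤ ∑ s ∈ X + Y, (h s - m) :=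
        sum_le_sum_of_subset_of_nonneg hsub fun s hs _ => by
          have := hmh s hs
          linarith
      have h4 : ((X.card : ℝ) + Y.card - 1) * m ≤ (X + Y).card * m :=
        mul_le_mul_of_nonneg_right hcdR hm0
      rw [hSX, hSY, hSX', hSY'] at hI
      rw [hSh] at h5
      linarith

/-- If at most `x t` of the points `x u` are at most `x t` (for all `t`), then the sum of an antitone
function over the points is at most the sum of its values at `1, 2, …`. -/
theorem sorted_sum {ι : Type*} [DecidableEq ι] (n : ℕ) : ∀ (X : Finset ι) (x : ι → ℝ) (ψ : ℝ → ℝ),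
    X.card = n → (∀ t ∈ X, ((X.filter (fun u => x u ≤ x t)).card : ℝ) ≤ x t) →
    (∀ y z : ℝ, 0 < y → y ≤ z → ψ z ≤ ψ y) →
    ∑ t ∈ X, ψ (x t) ≤ ∑ k ∈ range n, ψ ((k : ℝ) + 1) := by
  induction n with
  | zero =>
    intro X x ψ hn _ _
    rw [card_eq_zero] at hn
    simp [hn]
  | succ n ih =>
    intro X x ψ hn hx hψ
    have hne : X.Nonempty := by
      rw [← card_pos]
      omega
    obtain ⟨t, ht, hmax⟩ := exists_max_image X x hne
    have hall : X.filter (fun u => x u ≤ x t) = X := filter_true_of_mem hmax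
    have h1 := hx t ht
    rw [hall, hn] at h1
    have hc : (X.erase t).card = n := by
      rw [card_erase_of_mem ht]
      omega
    have h2 := ih (X.erase t) x ψ hc (fun u hu => by
      refine le_trans ?_ (hx u (mem_of_mem_erase hu))
      exact_mod_cast card_le_card (filter_subset_filter _ (erase_subset _ _))) hψ
    rw [← add_sum_erase X _ ht, sum_range_succ, add_comm]
    refine add_le_add h2 (hψ _ _ (by positivity) ?_)
    push_cast at h1
    exact h1

end Pool.Agent.TH83.PFR
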