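import Pool.Agent.TH83.PFR.Cover

/-!
Polynomial Freiman-Ruzsa for sets close to a down-set.
-/

set_option autoImplicit false

open Finset
open scoped Pointwise

namespace Pool.Agent.TH83.PFR

/-- the two-element form of a Freiman isomorphism of order two -/
theorem iso_two {Γ : Type*} [AddCommGroup Γ] {n : ℕ} {D : Set (Fin n → ℤ)} {X : Set Γ}
    {F : (Fin n → ℤ) → Γ} (hF : IsAddFreimanIso 2 D X F) :
    ∀ a ∈ D, ∀ b ∈ D, ∀ c ∈ D, ∀ e ∈ D, (F a + F b = F c + F e ↔ a + b = c + e) := by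
  intro a ha b hb c hc e he
  have h := hF.map_sum_eq_map_sum (s := {a, b}) (t := {c, e})
    (by
      intro x hx
      simp only [Multiset.insert_eq_cons, Multiset.mem_cons, Multiset.mem_singleton] at hx
      rcases hx with rfl | rfl <;> assumption)
    (by
      intro x hx
      simp only [Multiset.insert_eq_cons, Multiset.mem_cons, Multiset.mem_singleton] at hx
      rcases hx with rfl | rfl <;> assumption)
    (by simp) (by simp)
  simpa using h

theorem card_add_le {Γ : Type*} [AddCommGroup Γ] [DecidableEq Γ] {n : ℕ}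
    (D : Finset (Fin n → ℤ)) (F : (Fin n → ℤ) → Γ)
    (hF : ∀ a ∈ D, ∀ b ∈ D, ∀ c ∈ D, ∀ e ∈ D, (F a + F b = F c + F e ↔ a + b = c + e)) :
    (D + D).card ≤ (D.image F + D.image F).card := by
  classical
  have h1 : ∀ s ∈ D + D, ∃ p : (Fin n → ℤ) × (Fin n → ℤ), p.1 ∈ D ∧ p.2 ∈ D ∧ p.1 + p.2 = s := by
    intro s hs
    obtain ⟨a, ha, b, hb, h⟩ := mem_add.1 hs
    exact ⟨(a, b), ha, hb, h⟩
  choose! p hp1 hp2 hp using h1
  refine card_le_card_of_injOn (fun s => F (p s).1 + F (p s).2) ?_ ?_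
  · intro s hs
    exact add_mem_add (mem_image_of_mem F (hp1 s hs)) (mem_image_of_mem F (hp2 s hs))
  · intro s hs t ht h
    have h2 := (hF _ (hp1 s hs) _ (hp2 s hs) _ (hp1 t ht) _ (hp2 t ht)).1 h
    rw [hp s hs, hp t ht] at h2
    exact h2

theorem log_num : (404 / 1000 : ℝ) ≤ Real.log (3 / 2) := by
  rw [Real.le_log_iff_exp_le (by norm_num)]
  have h1 : Real.exp (404 / 1000) = (Real.exp 1) ^ (404 / 1000 : ℝ) := by
    rw [← Real.exp_mul, one_mul]
  have h2 : Real.exp 1 < 2.7182818286 := Real.exp_one_lt_d9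
  have h3 : (2.7182818286 : ℝ) ^ (101 : ℕ) ≤ (3 / 2) ^ (250 : ℕ) := by norm_num
  rw [h1]
  calc (Real.exp 1) ^ (404 / 1000 : ℝ) ≤ (2.7182818286 : ℝ) ^ (404 / 1000 : ℝ) :=
        Real.rpow_le_rpow (Real.exp_pos 1).le h2.le (by norm_num)
    _ = ((2.7182818286 : ℝ) ^ (101 : ℕ)) ^ (1 / 250 : ℝ) := by
        rw [← Real.rpow_natCast, ← Real.rpow_mul (by norm_num)]
        norm_num
    _ ≤ ((3 / 2 : ℝ) ^ (250 : ℕ)) ^ (1 / 250 : ℝ) :=
        Real.rpow_le_rpow (by norm_num) h3 (by norm_num)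
    _ = 3 / 2 := by
        rw [← Real.rpow_natCast, ← Real.rpow_mul (by norm_num)]
        norm_num

theorem vol_bound {K m v S : ℝ} (hK0 : 0 < K) (hm0 : 0 < m) (hv0 : 0 < v) (hS0 : 0 ≤ S)
    (hS : S ≤ K ^ 2 * m)
    (h1 : (m * m) ^ (101 / 100 : ℝ) ≤ S ^ 2 * (v * v) ^ (1 / 100 : ℝ)) : m ≤ K ^ 200 * v := by
  have hmm : 0 < m * m := mul_pos hm0 hm0
  have hvv : 0 < v * v := mul_pos hv0 hv0
  have hmr : 0 < (m * m) ^ (1 / 100 : ℝ) := Real.rpow_pos_of_pos hmm _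
  have hvr : 0 < (v * v) ^ (1 / 100 : ℝ) := Real.rpow_pos_of_pos hvv _
  have h2 : (m * m) ^ (101 / 100 : ℝ) = m ^ 2 * (m * m) ^ (1 / 100 : ℝ) := by
    rw [show (101 / 100 : ℝ) = 1 + 1 / 100 by norm_num, Real.rpow_add hmm, Real.rpow_one]
    ring
  rw [h2] at h1
  have h3 : S ^ 2 ≤ (K ^ 2 * m) ^ 2 := pow_le_pow_left₀ hS0 hS 2
  have h4 : m ^ 2 * (m * m) ^ (1 / 100 : ℝ) ≤ m ^ 2 * (K ^ 4 * (v * v) ^ (1 / 100 : ℝ)) := by
    calc m ^ 2 * (m * m) ^ (1 / 100 : ℝ) ≤ S ^ 2 * (v * v) ^ (1 / 100 : ℝ) := h1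
      _ ≤ (K ^ 2 * m) ^ 2 * (v * v) ^ (1 / 100 : ℝ) := mul_le_mul_of_nonneg_right h3 hvr.le
      _ = m ^ 2 * (K ^ 4 * (v * v) ^ (1 / 100 : ℝ)) := by ring
  have h5 := le_of_mul_le_mul_left h4 (pow_pos hm0 2)
  have h7 : ∀ y : ℝ, 0 ≤ y → (y ^ (1 / 100 : ℝ)) ^ (100 : ℕ) = y := by
    intro y hy
    rw [← Real.rpow_natCast, ← Real.rpow_mul hy]
    norm_num
  have h6 := pow_le_pow_left₀ hmr.le h5 100
  rw [mul_pow, h7 _ hmm.le, h7 _ hvv.le] at h6
  refine abs_le_of_sq_le_sq' ?_ (mul_pos (pow_pos hK0 200) hv0).le |>.2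
  calc m ^ 2 = m * m := sq m
    _ ≤ (K ^ 4) ^ 100 * (v * v) := h6
    _ = (K ^ 200 * v) ^ 2 := by ring

theorem main_theorem {Γ : Type*} [AddCommGroup Γ] [DecidableEq Γ] {n : ℕ}
    (D : Finset (Fin n → ℤ)) (hDne : D.Nonempty) (hD : IsDown D)
    (F : (Fin n → ℤ) → Γ) (X : Finset Γ)
    (hF : IsAddFreimanIso 2 (D : Set (Fin n → ℤ)) (X : Set Γ) F)
    (A : Finset Γ) (hA : A.Nonempty) (K : ℝ)
    (hK : ((A + X).card : ℝ) ≤ K * √((A.card : ℝ) * X.card)) :
    ∃ (d : ℕ) (B : Set (Fin d → ℝ)) (φ : (Fin d → ℤ) →+ Γ) (T : Finset Γ),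
      (d : ℝ) ≤ 500 * Real.log K ∧
      Convex ℝ B ∧ IsCompact B ∧ (interior B).Nonempty ∧ (∀ x ∈ B, -x ∈ B) ∧
      {x : Fin d → ℤ | (fun i => (x i : ℝ)) ∈ B}.ncard ≤ A.card ∧
      (T.card : ℝ) ≤ 3 * K ^ 350 ∧
      ∀ a ∈ A, ∃ t ∈ T, ∃ x : Fin d → ℤ, (fun i => (x i : ℝ)) ∈ B ∧ a = t + φ x := by
  classical
  have hF2 := iso_two hF
  have hXD : X = D.image F := by
    have h1 := hF.bijOn.image_eq
    rw [← coe_image] at h1
    exact (coe_injective h1).symm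
  have hcardX : X.card = D.card := by
    rw [hXD]
    exact card_image_of_injOn hF.bijOn.injOn
  have hXne : X.Nonempty := by
    rw [hXD]
    exact hDne.image F
  obtain ⟨x, hxD, hVx⟩ := V_down n D hDne hD
  have hx0 : 0 ≤ x := hD.1 x hxD
  have hPD : Icc 0 x ⊆ D := fun y hy => hD.2 x hxD y (mem_Icc.1 hy).1 (mem_Icc.1 hy).2
  have hFP : ∀ a ∈ Icc 0 x, ∀ b ∈ Icc 0 x, ∀ c ∈ Icc 0 x, ∀ e ∈ Icc 0 x,
      (F a + F b = F c + F e ↔ a + b = c + e) := fun a ha b hb c hc e he =>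
    hF2 a (hPD ha) b (hPD hb) c (hPD hc) e (hPD he)
  set P' := (Icc 0 x).image F with hP'
  have hP'X : P' ⊆ X := by
    rw [hXD]
    exact image_subset_image hPD
  set a : ℝ := (A.card : ℝ) with ha
  set m : ℝ := (X.card : ℝ) with hm
  set s : ℝ := ((A + X).card : ℝ) with hs
  have ha1 : 1 ≤ a := by
    rw [ha]
    exact_mod_cast card_pos.2 hA
  have hm1 : 1 ≤ m := by
    rw [hm]
    exact_mod_cast card_pos.2 hXne
  have ha0 : 0 < a := by linarith
  have hm0 : 0 < m := by linarith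
  have has : a ≤ s := by
    rw [ha, hs]
    exact_mod_cast card_le_card_add_right hXne
  have hms : m ≤ s := by
    rw [hm, hs]
    exact_mod_cast card_le_card_add_left hA
  have hs0 : 0 < s := by linarith
  have hr : 0 < √(a * m) := Real.sqrt_pos.2 (by positivity)
  have hrs : √(a * m) ≤ s := by
    refine Real.sqrt_le_iff.2 ⟨hs0.le, ?_⟩
    rw [sq]
    exact mul_le_mul has hms hm0.le hs0.le
  have hK1 : 1 ≤ K := by
    by_contra hcon
    push Not at hcon
    have : K * √(a * m) < 1 * √(a * m) := mul_lt_mul_of_pos_right hcon hr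
    linarith
  have hK0 : 0 < K := by linarith
  have hKp : ∀ e : ℕ, 0 < K ^ e := fun e => pow_pos hK0 e
  have hs2 : s ^ 2 ≤ K ^ 2 * (a * m) := by
    have h1 := pow_le_pow_left₀ hs0.le hK 2
    rw [mul_pow, Real.sq_sqrt (by positivity)] at h1
    exact h1
  have haKm : a ≤ K ^ 2 * m := by
    have h1 : a * a ≤ (K ^ 2 * m) * a := by nlinarith
    exact le_of_mul_le_mul_right h1 ha0
  have hmKa : m ≤ K ^ 2 * a := by
    have h1 : m * m ≤ (K ^ 2 * a) * m := by nlinarith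
    exact le_of_mul_le_mul_right h1 hm0
  have hsKm : s ≤ K ^ 2 * m := by
    refine abs_le_of_sq_le_sq' ?_ (by positivity) |>.2
    calc s ^ 2 ≤ K ^ 2 * (a * m) := hs2
      _ ≤ K ^ 2 * ((K ^ 2 * m) * m) := by
          refine mul_le_mul_of_nonneg_left ?_ (by positivity)
          exact mul_le_mul_of_nonneg_right haKm hm0.le
      _ = (K ^ 2 * m) ^ 2 := by ring
  have hsKa : s ≤ K ^ 2 * a := by
    refine abs_le_of_sq_le_sq' ?_ (by positivity) |>.2
    calc s ^ 2 ≤ K ^ 2 * (a * m) := hs2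
      _ ≤ K ^ 2 * (a * (K ^ 2 * a)) := by
          refine mul_le_mul_of_nonneg_left ?_ (by positivity)
          exact mul_le_mul_of_nonneg_left hmKa ha0.le
      _ = (K ^ 2 * a) ^ 2 := by ring
  -- the doubling of `D`
  have hXX : (((D + D).card : ℕ) : ℝ) ≤ K ^ 2 * m := by
    have h1 : ((X + X).card : ℝ) * a ≤ s * s := by
      have h2 := ruzsa_triangle_inequality_add_add_add X A X
      have h3 : ((X + X).card : ℝ) * (A.card : ℝ) ≤ ((X + A).card : ℝ) * ((A + X).card : ℝ) := by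
        exact_mod_cast h2
      rw [add_comm X A] at h3
      exact h3
    have h2 : ((X + X).card : ℝ) * a ≤ (K ^ 2 * m) * a := by nlinarith
    have h3 := le_of_mul_le_mul_right h2 ha0
    refine le_trans ?_ h3
    have h4 := card_add_le D F hF2
    rw [← hXD] at h4
    exact_mod_cast h4
  have hDm : (D.card : ℝ) = m := by rw [hm, hcardX]
  set v : ℝ := (V n D : ℝ) with hv
  have hv0 : 0 < v := by
    rw [hv]
    exact_mod_cast V_pos n D hDne
  have hmv : m ≤ K ^ 200 * v := by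
    have h1 := main_ineq n D D hDne hDne
    rw [hDm, ← hv] at h1
    exact vol_bound hK0 hm0 hv0 (Nat.cast_nonneg _) hXX h1
  set p : ℝ := ∏ i, (1 + (x i : ℝ)) with hp
  have hvp : v ≤ p := by
    rw [hv, hp]
    have h1 : ((V n D : ℤ) : ℝ) ≤ ((∏ i, (1 + x i) : ℤ) : ℝ) := by exact_mod_cast hVx
    push_cast at h1
    exact h1
  have hp0 : 0 < p := by linarith
  have hmp : m ≤ K ^ 200 * p := hmv.trans (mul_le_mul_of_nonneg_left hvp (hKp 200).le)
  set d : ℕ := (univ.filter (fun i => 0 < x i)).card with hd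
  -- the dimension
  have hdim : (3 / 2 : ℝ) ^ d ≤ K ^ 202 := by
    have h1 : ((Icc (-x) x).card : ℝ) ≤ ((P' - P').card : ℝ) := by
      exact_mod_cast card_diff F x hx0 (fun a ha b hb c hc e he => (hFP a ha b hb c hc e he).1)
    rw [card_box2 x hx0] at h1
    have h2 : (3 / 2 : ℝ) ^ d * p ≤ ∏ i, (2 * (x i : ℝ) + 1) := by
      rw [hd, hp, ← prod_ite_const x (3 / 2), ← prod_mul_distrib]
      refine prod_le_prod (fun i _ => ?_) (fun i _ => ?_)
      · have h3 : (0 : ℝ) ≤ (x i : ℝ) := by exact_mod_cast hx0 i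
        split_ifs <;> positivity
      · have h3 : (0 : ℝ) ≤ (x i : ℝ) := by exact_mod_cast hx0 i
        split_ifs with h4
        · have h5 : (1 : ℝ) ≤ (x i : ℝ) := by exact_mod_cast h4
          linarith
        · linarith
    have h3 : ((P' - P').card : ℝ) * a ≤ s * s := by
      have h4 := ruzsa_triangle_inequality_sub_add_add P' A P'
      have h5 : ((P' - P').card : ℝ) * (A.card : ℝ) ≤
          ((P' + A).card : ℝ) * ((P' + A).card : ℝ) := by exact_mod_cast h4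
      have h6 : ((P' + A).card : ℝ) ≤ s := by
        rw [hs, add_comm P' A]
        exact_mod_cast card_le_card (add_subset_add_left hP'X)
      refine h5.trans (mul_le_mul h6 h6 (Nat.cast_nonneg _) hs0.le)
    have h4 : (3 / 2 : ℝ) ^ d * (p * a) ≤ K ^ 202 * (p * a) := by
      calc (3 / 2 : ℝ) ^ d * (p * a) = ((3 / 2 : ℝ) ^ d * p) * a := by ring
        _ ≤ ((P' - P').card : ℝ) * a := mul_le_mul_of_nonneg_right (h2.trans h1) ha0.le
        _ ≤ s ^ 2 := by rw [sq]; exact h3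
        _ ≤ K ^ 2 * (a * m) := hs2
        _ ≤ K ^ 2 * (a * (K ^ 200 * p)) := by
            refine mul_le_mul_of_nonneg_left ?_ (by positivity)
            exact mul_le_mul_of_nonneg_left hmp ha0.le
        _ = K ^ 202 * (p * a) := by ring
    exact le_of_mul_le_mul_right h4 (mul_pos hp0 ha0)
  have hlogK : 0 ≤ Real.log K := Real.log_nonneg hK1
  have hdlog : (d : ℝ) ≤ 500 * Real.log K := by
    have h1 := Real.log_le_log (by positivity) hdim
    rw [Real.log_pow, Real.log_pow] at h1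
    push_cast at h1
    have h2 := log_num
    have h3 : (d : ℝ) * (404 / 1000) ≤ (d : ℝ) * Real.log (3 / 2) :=
      mul_le_mul_of_nonneg_left h2 (Nat.cast_nonneg _)
    linarith
  have h2d : (2 : ℝ) ^ d ≤ K ^ 347 := by
    have h1 : ((2 : ℝ) ^ d) ^ 7 ≤ (K ^ 347) ^ 7 := by
      calc ((2 : ℝ) ^ d) ^ 7 = ((2 : ℝ) ^ 7) ^ d := by rw [← pow_mul, ← pow_mul, mul_comm]
        _ ≤ ((3 / 2 : ℝ) ^ 12) ^ d := pow_le_pow_left₀ (by norm_num) (by norm_num) d
        _ = ((3 / 2 : ℝ) ^ d) ^ 12 := by rw [← pow_mul, ← pow_mul, mul_comm]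
        _ ≤ (K ^ 202) ^ 12 := pow_le_pow_left₀ (by positivity) hdim 12
        _ = K ^ 2424 := by rw [← pow_mul]
        _ ≤ K ^ 2429 := pow_le_pow_right₀ hK1 (by norm_num)
        _ = (K ^ 347) ^ 7 := by rw [← pow_mul]
    exact le_of_pow_le_pow_left₀ (by norm_num) (hKp 347).le h1
  have hAP : ((A + P').card : ℝ) ≤ s := by
    rw [hs]
    exact_mod_cast card_le_card (add_subset_add_left hP'X)
  obtain ⟨B, φ, T, h1, h2, h3, h4, h5, h6, h7⟩ := cover F x hx0 hFP A hA s hAP d hd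
  refine ⟨d, B, φ, T, hdlog, h1, h2, h3, h4, h5, ?_, h7⟩
  rcases h6 with h6 | h6
  · refine h6.trans ?_
    rw [← hp, div_le_iff₀ hp0]
    calc s ≤ K ^ 2 * m := hsKm
      _ ≤ K ^ 2 * (K ^ 200 * p) := mul_le_mul_of_nonneg_left hmp (by positivity)
      _ = K ^ 202 * p := by ring
      _ ≤ K ^ 350 * p := mul_le_mul_of_nonneg_right (pow_le_pow_right₀ hK1 (by norm_num)) hp0.le
      _ ≤ 3 * K ^ 350 * p := by
          have : 0 < K ^ 350 * p := mul_pos (hKp 350) hp0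
          linarith
  · refine h6.trans ?_
    rw [← ha, div_le_iff₀ ha0]
    calc 3 * 2 ^ d * s ≤ 3 * K ^ 347 * (K ^ 2 * a) := by
          refine mul_le_mul ?_ hsKa hs0.le (mul_pos (by norm_num) (hKp 347)).le
          linarith
      _ = 3 * K ^ 349 * a := by ring
      _ ≤ 3 * K ^ 350 * a := by
          have : K ^ 349 ≤ K ^ 350 := pow_le_pow_right₀ hK1 (by norm_num)
          nlinarith

end Pool.Agent.TH83.PFR
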