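import Pool.Agent.TH83.PFR.HLemma

/-!
The one-dimensional sup-convolution inequality.
-/

set_option autoImplicit false

open Finset
open scoped Pointwise

namespace Pool.Agent.TH83.PFR

/-- the weight `α (x α)^c` with `c = 1/100` -/
noncomputable def wt (α x : ℝ) : ℝ := α * (x * α) ^ (1 / 100 : ℝ)

theorem wt_pos {α x : ℝ} (hα : 0 < α) (hx : 0 < x) : 0 < wt α x := by
  unfold wt
  positivity

theorem wt_eq {α x : ℝ} (hα : 0 < α) (hx : 0 < x) :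
    wt α x = α ^ (101 / 100 : ℝ) * x ^ (1 / 100 : ℝ) := by
  unfold wt
  rw [Real.mul_rpow hx.le hα.le, show (101 / 100 : ℝ) = 1 + 1 / 100 by norm_num,
    Real.rpow_add hα, Real.rpow_one]
  ring

/-- rank condition -/
def Rank (X : Finset ℤ) (x : ℤ → ℝ) : Prop :=
  ∀ t ∈ X, ((X.filter (fun u => x u ≤ x t)).card : ℝ) ≤ x t

theorem Rank.one_le {X : Finset ℤ} {x : ℤ → ℝ} (hx : Rank X x) : ∀ t ∈ X, 1 ≤ x t := by
  intro t ht
  refine le_trans ?_ (hx t ht)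
  have : 0 < (X.filter (fun u => x u ≤ x t)).card := card_pos.2 ⟨t, mem_filter.2 ⟨ht, le_rfl⟩⟩
  exact_mod_cast this

theorem num3 : (11654 / 10000 : ℝ) ^ (101 / 100 : ℝ) ≤ 1168 / 1000 := by
  have h : (11654 / 10000 : ℝ) ^ (101 : ℕ) ≤ (1168 / 1000) ^ (100 : ℕ) := by norm_num
  calc (11654 / 10000 : ℝ) ^ (101 / 100 : ℝ)
      = ((11654 / 10000 : ℝ) ^ (101 : ℕ)) ^ (1 / 100 : ℝ) := by
        rw [← Real.rpow_natCast, ← Real.rpow_mul (by norm_num)]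
        norm_num
    _ ≤ ((1168 / 1000 : ℝ) ^ (100 : ℕ)) ^ (1 / 100 : ℝ) :=
        Real.rpow_le_rpow (by norm_num) h (by norm_num)
    _ = 1168 / 1000 := by
        rw [← Real.rpow_natCast, ← Real.rpow_mul (by norm_num)]
        norm_num

theorem num4 : (5 / 6 : ℝ) ^ (6299 / 6400 : ℝ) ≤ 837 / 1000 := by
  have h : (5 / 6 : ℝ) ^ (49 : ℕ) ≤ (837 / 1000) ^ (50 : ℕ) := by norm_num
  calc (5 / 6 : ℝ) ^ (6299 / 6400 : ℝ) ≤ (5 / 6 : ℝ) ^ (49 / 50 : ℝ) :=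
        Real.rpow_le_rpow_of_exponent_ge (by norm_num) (by norm_num) (by norm_num)
    _ = ((5 / 6 : ℝ) ^ (49 : ℕ)) ^ (1 / 50 : ℝ) := by
        rw [← Real.rpow_natCast, ← Real.rpow_mul (by norm_num)]
        norm_num
    _ ≤ ((837 / 1000 : ℝ) ^ (50 : ℕ)) ^ (1 / 50 : ℝ) :=
        Real.rpow_le_rpow (by norm_num) h (by norm_num)
    _ = 837 / 1000 := by
        rw [← Real.rpow_natCast, ← Real.rpow_mul (by norm_num)]
        norm_num

theorem num5 : (1 / 2 : ℝ) ^ (99 / 101 : ℝ) ≤ 51 / 100 := by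
  have h : (1 / 2 : ℝ) ^ (99 : ℕ) ≤ (51 / 100) ^ (101 : ℕ) := by norm_num
  calc (1 / 2 : ℝ) ^ (99 / 101 : ℝ) = ((1 / 2 : ℝ) ^ (99 : ℕ)) ^ (1 / 101 : ℝ) := by
        rw [← Real.rpow_natCast, ← Real.rpow_mul (by norm_num)]
        norm_num
    _ ≤ ((51 / 100 : ℝ) ^ (101 : ℕ)) ^ (1 / 101 : ℝ) :=
        Real.rpow_le_rpow (by norm_num) h (by norm_num)
    _ = 51 / 100 := by
        rw [← Real.rpow_natCast, ← Real.rpow_mul (by norm_num)]
        norm_num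

/-- the large case -/
theorem large_case (X : Finset ℤ) (α x : ℤ → ℝ) (hα : ∀ t ∈ X, 0 < α t) (hx : Rank X x)
    (hw : ∀ t ∈ X, wt (α t) (x t) ≤ 1) (hw1 : ∃ t ∈ X, wt (α t) (x t) = 1) (N : ℝ)
    (hQN : ∑ t ∈ X, √(wt (α t) (x t)) ≤ N) :
    (∑ t ∈ X, α t) ^ (101 / 100 : ℝ) ≤
      1168 / 1000 * ((∑ t ∈ X, wt (α t) (x t)) ^ (6299 / 6400 : ℝ) * N ^ (101 / 6400 : ℝ)) := by
  set P : ℝ := ∑ t ∈ X, wt (α t) (x t) with hP
  set Q : ℝ := ∑ t ∈ X, √(wt (α t) (x t)) with hQ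
  have hx1 := hx.one_le
  have hwp : ∀ t ∈ X, 0 < wt (α t) (x t) := fun t ht =>
    wt_pos (hα t ht) (by linarith [hx1 t ht])
  have hP1 : 1 ≤ P := by
    obtain ⟨t, ht, h1⟩ := hw1
    rw [← h1, hP]
    exact single_le_sum (f := fun t => wt (α t) (x t)) (fun u hu => (hwp u hu).le) ht
  have hP0 : 0 < P := by linarith
  have hQ0 : 0 < Q := by
    obtain ⟨t, ht, h1⟩ := hw1
    have h2 : √(wt (α t) (x t)) ≤ Q :=
      single_le_sum (f := fun t => √(wt (α t) (x t))) (fun u hu => Real.sqrt_nonneg _) ht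
    rw [h1, Real.sqrt_one] at h2
    linarith
  have hN0 : 0 < N := by linarith
  have hS0 : 0 ≤ ∑ t ∈ X, α t := sum_nonneg fun t ht => (hα t ht).le
  have hH := H_lemma X α x hα hx hw P Q hP hQ hP1
  have h1 : (∑ t ∈ X, α t) ^ (101 / 100 : ℝ) ≤
      (11654 / 10000 * P ^ (100 / 101 : ℝ) * (Q / P) ^ (1 / 64 : ℝ)) ^ (101 / 100 : ℝ) :=
    Real.rpow_le_rpow hS0 hH (by norm_num)
  refine h1.trans ?_
  rw [Real.mul_rpow (by positivity) (by positivity), Real.mul_rpow (by norm_num) (by positivity),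
    ← Real.rpow_mul hP0.le, ← Real.rpow_mul (by positivity)]
  have e1 : P ^ ((100 / 101 : ℝ) * (101 / 100)) = P := by
    norm_num
  have e2 : (Q / P) ^ ((1 / 64 : ℝ) * (101 / 100)) = Q ^ (101 / 6400 : ℝ) / P ^ (101 / 6400 : ℝ) := by
    rw [Real.div_rpow hQ0.le hP0.le]
    norm_num
  have e3 : P * (Q ^ (101 / 6400 : ℝ) / P ^ (101 / 6400 : ℝ)) =
      P ^ (6299 / 6400 : ℝ) * Q ^ (101 / 6400 : ℝ) := by
    have e4 : P = P ^ (6299 / 6400 : ℝ) * P ^ (101 / 6400 : ℝ) := by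
      rw [← Real.rpow_add hP0]
      norm_num
    rw [← mul_div_assoc, div_eq_iff (by positivity)]
    nth_rewrite 1 [e4]
    ring
  rw [e1, e2, mul_assoc, e3]
  have h2 : Q ^ (101 / 6400 : ℝ) ≤ N ^ (101 / 6400 : ℝ) :=
    Real.rpow_le_rpow hQ0.le hQN (by norm_num)
  have h3 : P ^ (6299 / 6400 : ℝ) * Q ^ (101 / 6400 : ℝ) ≤
      P ^ (6299 / 6400 : ℝ) * N ^ (101 / 6400 : ℝ) := mul_le_mul_of_nonneg_left h2 (by positivity)
  exact mul_le_mul num3 h3 (by positivity) (by norm_num)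

/-- the small case -/
theorem small_case (X : Finset ℤ) (α x : ℤ → ℝ) (hα : ∀ t ∈ X, 0 < α t) (hx : Rank X x)
    (hw : ∀ t ∈ X, wt (α t) (x t) ≤ 1) (hw1 : ∃ t ∈ X, wt (α t) (x t) = 1)
    (hQ2 : ∑ t ∈ X, √(wt (α t) (x t)) < 3 / 2) :
    (∑ t ∈ X, α t) ^ (101 / 100 : ℝ) ≤ ∑ t ∈ X, √(wt (α t) (x t)) := by
  obtain ⟨t0, ht0, hwt0⟩ := hw1
  have hx1 := hx.one_le
  have hwp : ∀ t ∈ X, 0 < wt (α t) (x t) := fun t ht =>
    wt_pos (hα t ht) (by linarith [hx1 t ht])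
  rw [← add_sum_erase X (fun t => √(wt (α t) (x t))) ht0] at hQ2
  rw [← add_sum_erase X (fun t => √(wt (α t) (x t))) ht0, ← add_sum_erase X α ht0]
  set E : ℝ := ∑ t ∈ X.erase t0, √(wt (α t) (x t)) with hE
  have hE0 : 0 ≤ E := sum_nonneg fun t _ => Real.sqrt_nonneg _
  simp only [hwt0, Real.sqrt_one] at hQ2
  simp only [hwt0, Real.sqrt_one]
  have hE2 : E < 1 / 2 := by linarith
  -- `α ^ (101/100) ≤ w`
  have hαw : ∀ t ∈ X, α t ≤ (√(wt (α t) (x t))) ^ (200 / 101 : ℝ) := by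
    intro t ht
    have hxt := hx1 t ht
    have h1 : (α t) ^ (101 / 100 : ℝ) ≤ wt (α t) (x t) := by
      rw [wt_eq (hα t ht) (by linarith)]
      have h2 : (1 : ℝ) ≤ (x t) ^ (1 / 100 : ℝ) := Real.one_le_rpow hxt (by norm_num)
      have h3 : 0 ≤ (α t) ^ (101 / 100 : ℝ) := Real.rpow_nonneg (hα t ht).le _
      nlinarith
    have h2 : ((α t) ^ (101 / 100 : ℝ)) ^ (100 / 101 : ℝ) ≤
        (wt (α t) (x t)) ^ (100 / 101 : ℝ) :=
      Real.rpow_le_rpow (Real.rpow_nonneg (hα t ht).le _) h1 (by norm_num)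
    rw [← Real.rpow_mul (hα t ht).le] at h2
    have h3 : (wt (α t) (x t)) ^ (100 / 101 : ℝ) = (√(wt (α t) (x t))) ^ (200 / 101 : ℝ) := by
      rw [Real.sqrt_eq_rpow, ← Real.rpow_mul (hwp t ht).le]
      norm_num
    rw [h3] at h2
    norm_num at h2 ⊢
    exact h2
  have h0 : α t0 ≤ 1 := by
    have h1 := hαw t0 ht0
    rw [hwt0, Real.sqrt_one, Real.one_rpow] at h1
    exact h1
  have hrest : ∑ t ∈ X.erase t0, α t ≤ 51 / 100 * E := by
    rw [hE, mul_sum]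
    refine sum_le_sum fun t ht => ?_
    have htX := mem_of_mem_erase ht
    set f : ℝ := √(wt (α t) (x t)) with hf
    have hf0 : 0 < f := Real.sqrt_pos.2 (hwp t htX)
    have hfE : f ≤ E := single_le_sum (f := fun t => √(wt (α t) (x t)))
      (fun u _ => Real.sqrt_nonneg _) ht
    have h1 := hαw t htX
    rw [← hf] at h1
    have h2 : f ^ (200 / 101 : ℝ) = f * f ^ (99 / 101 : ℝ) := by
      rw [show (200 / 101 : ℝ) = 1 + 99 / 101 by norm_num, Real.rpow_add hf0, Real.rpow_one]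
    have h3 : f ^ (99 / 101 : ℝ) ≤ (1 / 2) ^ (99 / 101 : ℝ) :=
      Real.rpow_le_rpow hf0.le (by linarith) (by norm_num)
    have h4 := num5
    rw [h2] at h1
    nlinarith
  have hS : α t0 + ∑ t ∈ X.erase t0, α t ≤ 1 + 51 / 100 * E := by linarith
  have hS0 : 0 ≤ α t0 + ∑ t ∈ X.erase t0, α t :=
    add_nonneg (hα t0 ht0).le (sum_nonneg fun t ht => (hα t (mem_of_mem_erase ht)).le)
  have h1 : (α t0 + ∑ t ∈ X.erase t0, α t) ^ (101 / 100 : ℝ) ≤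
      (1 + 51 / 100 * E) ^ (101 / 100 : ℝ) := Real.rpow_le_rpow hS0 hS (by norm_num)
  refine h1.trans ?_
  have h2 : (1 + 51 / 100 * E) ^ (101 / 100 : ℝ) =
      (1 + 51 / 100 * E) * (1 + 51 / 100 * E) ^ (1 / 100 : ℝ) := by
    rw [show (101 / 100 : ℝ) = 1 + 1 / 100 by norm_num, Real.rpow_add (by positivity),
      Real.rpow_one]
  have h3 : (1 + 51 / 100 * E) ^ (1 / 100 : ℝ) ≤ 1 + 1 / 100 * (51 / 100 * E) :=
    rpow_one_add_le_one_add_mul_self (by linarith) (by norm_num) (by norm_num)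
  rw [h2]
  nlinarith

/-- normalised form -/
theorem oneD_norm (X Y : Finset ℤ) (α x β y : ℤ → ℝ) (h : ℤ → ℝ)
    (hα : ∀ t ∈ X, 0 < α t) (hx : Rank X x)
    (hw : ∀ t ∈ X, wt (α t) (x t) ≤ 1) (hw1 : ∃ t ∈ X, wt (α t) (x t) = 1)
    (hβ : ∀ t ∈ Y, 0 < β t) (hy : Rank Y y)
    (hv : ∀ t ∈ Y, wt (β t) (y t) ≤ 1) (hv1 : ∃ t ∈ Y, wt (β t) (y t) = 1)
    (h0 : ∀ s, 0 ≤ h s)
    (hh : ∀ t ∈ X, ∀ u ∈ Y, wt (α t) (x t) * wt (β u) (y u) ≤ h (t + u) ^ 2) :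
    ((∑ t ∈ X, α t) * (∑ u ∈ Y, β u)) ^ (101 / 100 : ℝ) ≤ (∑ s ∈ X + Y, h s) ^ 2 := by
  set N : ℝ := ∑ s ∈ X + Y, h s with hN
  have hx1 := hx.one_le
  have hy1 := hy.one_le
  have hwp : ∀ t ∈ X, 0 < wt (α t) (x t) := fun t ht =>
    wt_pos (hα t ht) (by linarith [hx1 t ht])
  have hvp : ∀ t ∈ Y, 0 < wt (β t) (y t) := fun t ht =>
    wt_pos (hβ t ht) (by linarith [hy1 t ht])
  have hSa : 0 ≤ ∑ t ∈ X, α t := sum_nonneg fun t ht => (hα t ht).le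
  have hSb : 0 ≤ ∑ t ∈ Y, β t := sum_nonneg fun t ht => (hβ t ht).le
  -- level sets
  have hlev : ∑ t ∈ X, wt (α t) (x t) + ∑ u ∈ Y, wt (β u) (y u) - 1 ≤ N := by
    refine level_sum _ X Y _ _ h 1 le_rfl (fun t ht => ⟨(hwp t ht).le, hw t ht⟩)
      (fun t ht => ⟨(hvp t ht).le, hv t ht⟩) hw1 hv1 ?_
    intro t ht u hu
    refine abs_le_of_sq_le_sq' ?_ (h0 _) |>.2
    refine le_trans ?_ (hh t ht u hu)
    have h1 := (hwp t ht).le
    have h2 := (hvp u hu).le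
    rcases min_choice (wt (α t) (x t)) (wt (β u) (y u)) with hc | hc
    · rw [hc, sq]
      exact mul_le_mul_of_nonneg_left (min_eq_left_iff.1 hc) h1
    · rw [hc, sq]
      exact mul_le_mul_of_nonneg_right (min_eq_right_iff.1 hc) h2
  have hQa : ∑ t ∈ X, √(wt (α t) (x t)) ≤ N := by
    obtain ⟨u0, hu0, hvu0⟩ := hv1
    have h1 : ∑ t ∈ X, √(wt (α t) (x t)) ≤ ∑ t ∈ X, h (t + u0) := by
      refine sum_le_sum fun t ht => ?_
      have h2 := hh t ht u0 hu0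
      rw [hvu0, mul_one] at h2
      exact Real.sqrt_le_iff.2 ⟨h0 _, h2⟩
    have h3 : ∑ t ∈ X, h (t + u0) = ∑ s ∈ X.image (fun t => t + u0), h s := by
      rw [sum_image fun a _ b _ hab => add_right_cancel hab]
    have h4 : X.image (fun t => t + u0) ⊆ X + Y := by
      intro s hs
      obtain ⟨t, ht, rfl⟩ := mem_image.1 hs
      exact add_mem_add ht hu0
    rw [h3] at h1
    exact h1.trans (sum_le_sum_of_subset_of_nonneg h4 fun s _ _ => h0 s)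
  have hQb : ∑ u ∈ Y, √(wt (β u) (y u)) ≤ N := by
    obtain ⟨t0, ht0, hwt0⟩ := hw1
    have h1 : ∑ u ∈ Y, √(wt (β u) (y u)) ≤ ∑ u ∈ Y, h (t0 + u) := by
      refine sum_le_sum fun u hu => ?_
      have h2 := hh t0 ht0 u hu
      rw [hwt0, one_mul] at h2
      exact Real.sqrt_le_iff.2 ⟨h0 _, h2⟩
    have h3 : ∑ u ∈ Y, h (t0 + u) = ∑ s ∈ Y.image (fun u => t0 + u), h s := by
      rw [sum_image fun a _ b _ hab => add_left_cancel hab]
    have h4 : Y.image (fun u => t0 + u) ⊆ X + Y := by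
      intro s hs
      obtain ⟨t, ht, rfl⟩ := mem_image.1 hs
      exact add_mem_add ht0 ht
    rw [h3] at h1
    exact h1.trans (sum_le_sum_of_subset_of_nonneg h4 fun s _ _ => h0 s)
  have hN0 : 0 ≤ N := sum_nonneg fun s _ => h0 s
  rw [Real.mul_rpow hSa hSb]
  rcases lt_or_ge N (3 / 2) with hc | hc
  · have h1 := small_case X α x hα hx hw hw1 (lt_of_le_of_lt hQa hc)
    have h2 := small_case Y β y hβ hy hv hv1 (lt_of_le_of_lt hQb hc)
    rw [sq]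
    exact mul_le_mul (h1.trans hQa) (h2.trans hQb) (Real.rpow_nonneg hSb _) hN0
  · have hNp : 0 < N := by linarith
    have h1 := large_case X α x hα hx hw hw1 N hQa
    have h2 := large_case Y β y hβ hy hv hv1 N hQb
    set Pa : ℝ := ∑ t ∈ X, wt (α t) (x t) with hPa
    set Pb : ℝ := ∑ u ∈ Y, wt (β u) (y u) with hPb
    have hPa0 : 0 ≤ Pa := sum_nonneg fun t ht => (hwp t ht).le
    have hPb0 : 0 ≤ Pb := sum_nonneg fun t ht => (hvp t ht).le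
    have h3 : Pa * Pb ≤ (5 / 6 * N) ^ 2 := by
      have h4 : Pa + Pb ≤ 2 * (5 / 6 * N) := by linarith
      nlinarith [sq_nonneg (Pa - Pb)]
    have h4 : (Pa * Pb) ^ (6299 / 6400 : ℝ) ≤
        ((5 / 6 : ℝ) ^ (6299 / 6400 : ℝ)) ^ 2 * (N ^ (6299 / 6400 : ℝ)) ^ 2 := by
      refine (Real.rpow_le_rpow (by positivity) h3 (by norm_num)).trans ?_
      rw [← mul_pow, ← Real.mul_rpow (by norm_num) hN0, ← Real.rpow_natCast,
        ← Real.rpow_natCast, ← Real.rpow_mul (by positivity), ← Real.rpow_mul (by positivity),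
        mul_comm ((2 : ℕ) : ℝ)]
    have h5 := mul_le_mul h1 h2 (Real.rpow_nonneg hSb _) (by positivity)
    refine h5.trans ?_
    have e1 : 1168 / 1000 * (Pa ^ (6299 / 6400 : ℝ) * N ^ (101 / 6400 : ℝ)) *
        (1168 / 1000 * (Pb ^ (6299 / 6400 : ℝ) * N ^ (101 / 6400 : ℝ))) =
        (1168 / 1000) ^ 2 * (Pa * Pb) ^ (6299 / 6400 : ℝ) * (N ^ (101 / 6400 : ℝ)) ^ 2 := by
      rw [Real.mul_rpow hPa0 hPb0]
      ring
    rw [e1]
    have e2 : N = N ^ (6299 / 6400 : ℝ) * N ^ (101 / 6400 : ℝ) := by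
      rw [← Real.rpow_add hNp]
      norm_num
    have e3 : N ^ 2 = (N ^ (6299 / 6400 : ℝ)) ^ 2 * (N ^ (101 / 6400 : ℝ)) ^ 2 := by
      rw [← mul_pow, ← e2]
    rw [e3]
    refine mul_le_mul_of_nonneg_right ?_ (by positivity)
    have h6 := num4
    have h7 : 0 ≤ (5 / 6 : ℝ) ^ (6299 / 6400 : ℝ) := by positivity
    have h8 : (1168 / 1000) ^ 2 * ((5 / 6 : ℝ) ^ (6299 / 6400 : ℝ)) ^ 2 ≤ 1 := by nlinarith
    have h9 : 0 ≤ (N ^ (6299 / 6400 : ℝ)) ^ 2 := by positivity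
    calc (1168 / 1000 : ℝ) ^ 2 * (Pa * Pb) ^ (6299 / 6400 : ℝ) ≤
        (1168 / 1000) ^ 2 * (((5 / 6 : ℝ) ^ (6299 / 6400 : ℝ)) ^ 2 *
          (N ^ (6299 / 6400 : ℝ)) ^ 2) := mul_le_mul_of_nonneg_left h4 (by norm_num)
      _ = ((1168 / 1000) ^ 2 * ((5 / 6 : ℝ) ^ (6299 / 6400 : ℝ)) ^ 2) *
          (N ^ (6299 / 6400 : ℝ)) ^ 2 := by ring
      _ ≤ 1 * (N ^ (6299 / 6400 : ℝ)) ^ 2 := mul_le_mul_of_nonneg_right h8 h9
      _ = (N ^ (6299 / 6400 : ℝ)) ^ 2 := one_mul _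

theorem wt_scale {α x M : ℝ} (hα : 0 < α) (hx : 0 < x) (hM : 0 < M) :
    wt (α * M ^ (-(100 / 101) : ℝ)) x = wt α x / M := by
  rw [wt_eq (by positivity) hx, wt_eq hα hx, Real.mul_rpow hα.le (by positivity),
    ← Real.rpow_mul hM.le]
  norm_num
  rw [Real.rpow_neg_one]
  ring

/-- **The one-dimensional sup-convolution inequality.** -/
theorem oneD (X Y : Finset ℤ) (α x β y : ℤ → ℝ) (h : ℤ → ℝ) (hX : X.Nonempty) (hY : Y.Nonempty)
    (hα : ∀ t ∈ X, 0 < α t) (hx : Rank X x) (hβ : ∀ t ∈ Y, 0 < β t) (hy : Rank Y y)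
    (h0 : ∀ s, 0 ≤ h s)
    (hh : ∀ t ∈ X, ∀ u ∈ Y, wt (α t) (x t) * wt (β u) (y u) ≤ h (t + u) ^ 2) :
    ((∑ t ∈ X, α t) * (∑ u ∈ Y, β u)) ^ (101 / 100 : ℝ) ≤ (∑ s ∈ X + Y, h s) ^ 2 := by
  have hx1 := hx.one_le
  have hy1 := hy.one_le
  obtain ⟨t0, ht0, hM⟩ := exists_max_image X (fun t => wt (α t) (x t)) hX
  obtain ⟨u0, hu0, hL⟩ := exists_max_image Y (fun t => wt (β t) (y t)) hY
  set M : ℝ := wt (α t0) (x t0) with hMdef
  set L : ℝ := wt (β u0) (y u0) with hLdef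
  have hM0 : 0 < M := wt_pos (hα t0 ht0) (by linarith [hx1 t0 ht0])
  have hL0 : 0 < L := wt_pos (hβ u0 hu0) (by linarith [hy1 u0 hu0])
  have hSa : 0 ≤ ∑ t ∈ X, α t := sum_nonneg fun t ht => (hα t ht).le
  have hSb : 0 ≤ ∑ t ∈ Y, β t := sum_nonneg fun t ht => (hβ t ht).le
  have hsc : ∀ t ∈ X, wt (α t * M ^ (-(100 / 101) : ℝ)) (x t) = wt (α t) (x t) / M :=
    fun t ht => wt_scale (hα t ht) (by linarith [hx1 t ht]) hM0
  have hsc' : ∀ t ∈ Y, wt (β t * L ^ (-(100 / 101) : ℝ)) (y t) = wt (β t) (y t) / L :=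
    fun t ht => wt_scale (hβ t ht) (by linarith [hy1 t ht]) hL0
  have key := oneD_norm X Y (fun t => α t * M ^ (-(100 / 101) : ℝ)) x
    (fun t => β t * L ^ (-(100 / 101) : ℝ)) y (fun s => h s / √(M * L))
    (fun t ht => mul_pos (hα t ht) (by positivity)) hx
    (fun t ht => by
      rw [hsc t ht, div_le_one hM0]
      exact hM t ht)
    ⟨t0, ht0, by rw [hsc t0 ht0, div_self hM0.ne']⟩
    (fun t ht => mul_pos (hβ t ht) (by positivity)) hy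
    (fun t ht => by
      rw [hsc' t ht, div_le_one hL0]
      exact hL t ht)
    ⟨u0, hu0, by rw [hsc' u0 hu0, div_self hL0.ne']⟩
    (fun s => div_nonneg (h0 s) (Real.sqrt_nonneg _))
    (fun t ht u hu => by
      rw [hsc t ht, hsc' u hu, div_pow, Real.sq_sqrt (by positivity), div_mul_div_comm]
      exact div_le_div_of_nonneg_right (hh t ht u hu) (by positivity))
  rw [← sum_mul, ← sum_mul, ← sum_div, div_pow, Real.sq_sqrt (by positivity)] at key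
  have e1 : (∑ t ∈ X, α t) * M ^ (-(100 / 101) : ℝ) * ((∑ u ∈ Y, β u) * L ^ (-(100 / 101) : ℝ)) =
      (∑ t ∈ X, α t) * (∑ u ∈ Y, β u) * (M * L) ^ (-(100 / 101) : ℝ) := by
    rw [Real.mul_rpow hM0.le hL0.le]
    ring
  have e2 : ((M * L) ^ (-(100 / 101) : ℝ)) ^ (101 / 100 : ℝ) = (M * L)⁻¹ := by
    rw [← Real.rpow_mul (by positivity), ← Real.rpow_neg_one]
    norm_num
  rw [e1, Real.mul_rpow (by positivity) (by positivity), e2, ← div_eq_mul_inv] at key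
  exact (div_le_div_iff_of_pos_right (by positivity)).1 key

end Pool.Agent.TH83.PFR
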